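import Mathlib

set_option autoImplicit false

open Filter Topology Set

namespace Pool.Agent.TH289.L

/-- `h` collapses no nontrivial continuum of a leaf of the stable foliation of `f`: a compact
connected set `C` which shrinks to points under the iterates of `f` (for every neighbourhood `𝒰` of
the diagonal, all pairs of points of `fⁿ(C)` are in `𝒰` for all large `n`) and on which `h` is
constant has at most one point.  (For the unstable foliation take `f.symm`.)  For instance this holds
when the fibres of `h` are finite, countable or totally disconnected. -/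
def Light {M N : Type*} [TopologicalSpace M] (f : M ≃ₜ M) (h : M → N) : Prop :=
  ∀ C : Set M, IsCompact C → IsPreconnected C →
    (∀ 𝒰 ∈ 𝓝ˢ (diagonal M), ∀ᶠ n in atTop, ∀ x ∈ C, ∀ y ∈ C, (f^[n] x, f^[n] y) ∈ 𝒰) →
    (∀ x ∈ C, ∀ y ∈ C, h x = h y) → C.Subsingleton

end Pool.Agent.TH289.L
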