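import Pool.Agent.TH289.K.B2
import Pool.Agent.TH289.L.Def

set_option autoImplicit false
set_option linter.unusedSectionVars false

open Filter Topology Set Metric unitInterval

namespace Pool.Agent.TH289.L

open Pool.Agent.H789R2.AN Pool.Agent.H789R2.GP Pool.Agent.TH289.K

section strips

variable {X : Type*} [MetricSpace X] [CompactSpace X] {g : X ≃ₜ X} {c : ℝ}

/-- the strip of brackets -/
theorem br_strip (h : LP g c) {br : X → X → X} {δ : ℝ}
    (b1 : ∀ x y, dist x y < δ → SR g (c / 3) x (br x y) ∧ SR g.symm (c / 3) y (br x y))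
    (b4 : ∀ ε > 0, ∃ η > 0, ∀ x x' y y', dist x y < δ → dist x' y' < δ → dist x x' < η →
        dist y y' < η → dist (br x y) (br x' y') < ε)
    (v : C(I, SM g.symm)) (s : X) (hv : ∀ t, dist (v t).val s < δ) :
    ∃ Γ : C(I, Pr g), (∀ t, (Γ t).x = (v t).val) ∧ ∀ t, (Γ t).y = br (v t).val s := by
  have hc := h.c_pos
  have hS : ∀ t, SR g c (v t).val (br (v t).val s) := fun t =>
    (b1 _ _ (hv t)).1.mono (by linarith)
  let K : I → Pr g := fun t => ⟨(v t).val, br (v t).val s, WS.of_SR (h.cS _ _ (hS t))⟩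
  have hK : Continuous K := by
    rw [Pr.continuous_iff]
    refine ⟨v.continuous, ?_, fun t ε hε => ?_⟩
    · rw [Metric.continuous_iff']
      intro t ε hε
      obtain ⟨η, hη, h1⟩ := qs_SR_of_dist h.symm (ε / 2) (half_pos hε)
      obtain ⟨η', hη', h2⟩ := b4 η hη
      filter_upwards [(Metric.continuous_iff'.1 v.continuous) t η' hη'] with r hr
      have h3 : SR g.symm (ε / 2) (br (v r).val s) (br (v t).val s) := by
        apply h1
        · exact (qs_SR_add (b1 _ _ (hv r)).2.symm' (b1 _ _ (hv t)).2).mono (by linarith)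
        · apply h2 _ _ _ _ (hv r) (hv t)
          · have h4 : SR g.symm (dist (v r) (v t)) (v r).val (v t).val :=
              (SM.dist_le _ _ dist_nonneg).1 le_rfl
            exact lt_of_le_of_lt (h4 0) hr
          · rw [dist_self]
            exact hη'
      have h5 : dist ((K r).snd) ((K t).snd) ≤ ε / 2 := (SM.dist_le _ _ (half_pos hε).le).2 h3
      exact lt_of_le_of_lt h5 (half_lt_self hε)
    · obtain ⟨N, hN⟩ := qs_exists_pow hc hε
      refine ⟨N, Eventually.of_forall fun r k hk => ?_⟩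
      exact (h.cS _ _ (hS r) k).trans (hN k hk).le
  exact ⟨⟨K, hK⟩, fun t => rfl, fun t => rfl⟩

theorem strip_iter (j : ℕ) (Γ : C(I, Pr g)) : ∃ Γ' : C(I, Pr g),
    (∀ t, (Γ' t).x = g^[j] (Γ t).x) ∧ ∀ t, (Γ' t).y = g^[j] (Γ t).y := by
  induction j with
  | zero => exact ⟨Γ, fun t => rfl, fun t => rfl⟩
  | succ j ih =>
    obtain ⟨Γ', h1, h2⟩ := ih
    refine ⟨⟨_, (map_Pr_continuous (g := g) (φ := g) (fun _ => rfl)).comp Γ'.continuous⟩,
      fun t => ?_, fun t => ?_⟩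
    · show g (Γ' t).x = _
      rw [h1, Function.iterate_succ_apply']
    · show g (Γ' t).y = _
      rw [h2, Function.iterate_succ_apply']

theorem path_iter (j : ℕ) (v : C(I, SM g.symm)) : ∃ v' : C(I, SM g.symm),
    ∀ t, (v' t).val = g.symm^[j] (v t).val := by
  induction j with
  | zero => exact ⟨v, fun t => rfl⟩
  | succ j ih =>
    obtain ⟨v', h1⟩ := ih
    obtain ⟨v'', h2⟩ := lift_map_path (g := g) (φ := g.symm)
      (fun x => by rw [g.symm_apply_apply, g.apply_symm_apply]) v'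
    refine ⟨v'', fun t => ?_⟩
    rw [h2, h1, Function.iterate_succ_apply']

/-- composition of strips -/
theorem strip_comp (Γ Γ₂ : C(I, Pr g)) (h : ∀ t, (Γ₂ t).x = (Γ t).y) :
    ∃ Γ' : C(I, Pr g), (∀ t, (Γ' t).x = (Γ t).x) ∧ ∀ t, (Γ' t).y = (Γ₂ t).y := by
  have hW : ∀ t, WS g (Γ t).x (Γ₂ t).y := fun t => by
    have e1 := (Γ t).h
    have e2 := (Γ₂ t).h
    rw [h t] at e2
    exact e1.trans e2
  have c1 := (Pr.continuous_iff Γ).1 Γ.continuous
  have c2 := (Pr.continuous_iff Γ₂).1 Γ₂.continuous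
  refine ⟨⟨fun t => ⟨(Γ t).x, (Γ₂ t).y, hW t⟩, ?_⟩, fun t => rfl, fun t => rfl⟩
  rw [Pr.continuous_iff]
  refine ⟨c1.1, c2.2.1, fun a ε hε => ?_⟩
  obtain ⟨n1, hn1⟩ := c1.2.2 a (ε / 2) (half_pos hε)
  obtain ⟨n2, hn2⟩ := c2.2.2 a (ε / 2) (half_pos hε)
  refine ⟨max n1 n2, ?_⟩
  filter_upwards [hn1, hn2] with t ht1 ht2 k hk
  have e1 := ht1 k ((le_max_left _ _).trans hk)
  have e2 := ht2 k ((le_max_right _ _).trans hk)
  rw [h t] at e2
  have := dist_triangle (g^[k] (Γ t).x) (g^[k] (Γ t).y) (g^[k] (Γ₂ t).y)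
  show dist (g^[k] (Γ t).x) (g^[k] (Γ₂ t).y) ≤ ε
  linarith

end strips

variable {X Y : Type*} [MetricSpace X] [MetricSpace Y] [CompactSpace X] {g : X ≃ₜ X} {k : Y ≃ₜ Y}
  {h : X → Y} {c c' c₂ : ℝ}

theorem SC.wS (H : SC g k h) {x y : X} (hxy : WS g x y) : WS k (h x) (h y) := by
  have hu := CompactSpace.uniformContinuous_of_continuous H.cont
  unfold WS at hxy ⊢
  rw [Metric.tendsto_atTop] at hxy ⊢
  intro ε hε
  obtain ⟨δ, hδ, h1⟩ := Metric.uniformContinuous_iff.mp hu ε hε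
  obtain ⟨N, hN⟩ := hxy δ hδ
  refine ⟨N, fun n hn => ?_⟩
  have h2 := hN n hn
  rw [Real.dist_0_eq_abs, abs_of_nonneg dist_nonneg] at h2 ⊢
  rw [← H.iter, ← H.iter]
  exact h1 h2

theorem SC.wU (H : SC g k h) {x y : X} (hxy : WS g.symm x y) : WS k.symm (h x) (h y) :=
  SC.wS H.symm hxy

/-- unstable paths of bounded size slide along small stable displacements -/
theorem SC.slide_loc (H : SC g k h) (hg : LP g c) (T : IQS k c₂) :
    ∃ c₁ > 0, c₁ ≤ c ∧ ∀ j : ℕ, ∃ η > 0, ∀ (v : C(I, SM g.symm)) (s : X), SR g η (v 0).val s →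
      (∀ t, SR g.symm c₁ (g.symm^[j] (v 0).val) (g.symm^[j] (v t).val)) →
      ∃ Γ : C(I, Pr g), (Γ 0).y = s ∧ (∀ t, (Γ t).x = (v t).val) ∧
        ∀ t, T.Q (h (v 0).val) (h s) (h (v t).val) (h (Γ t).y) := by
  obtain ⟨br, δ, hδ, hbr, hsmall, huniq, hunif⟩ := exists_br hg
  obtain ⟨θ₀, hθ₀, htiny⟩ := T.tiny
  obtain ⟨e1, he1, hS⟩ := H.mapS hθ₀
  obtain ⟨e2, he2, hU⟩ := H.mapU hθ₀
  obtain ⟨θ, hθ, hθ2⟩ := hsmall (min e1 e2) (lt_min he1 he2)
  have hc := hg.c_pos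
  set c₁ := min (min (δ / 2) (θ / 2)) (min (c / 3) e2) with hc₁
  have hc₁0 : 0 < c₁ := by positivity
  have b1 : c₁ ≤ δ / 2 := (min_le_left _ _).trans (min_le_left _ _)
  have b2 : c₁ ≤ θ / 2 := (min_le_left _ _).trans (min_le_right _ _)
  have b3 : c₁ ≤ c / 3 := (min_le_right _ _).trans (min_le_left _ _)
  have b4 : c₁ ≤ e2 := (min_le_right _ _).trans (min_le_right _ _)
  refine ⟨c₁, hc₁0, by linarith, fun j => ?_⟩
  set η' := min (c / 3) (min (min (δ / 4) (θ / 4)) e1) with hη'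
  have hη'0 : 0 < η' := by positivity
  have k1 : η' ≤ c / 3 := min_le_left _ _
  have k3 : η' ≤ δ / 4 := (min_le_right _ _).trans ((min_le_left _ _).trans (min_le_left _ _))
  have k4 : η' ≤ θ / 4 := (min_le_right _ _).trans ((min_le_left _ _).trans (min_le_right _ _))
  have k5 : η' ≤ e1 := (min_le_right _ _).trans (min_le_right _ _)
  have hcm : ∀ x, g.symm (g x) = g (g.symm x) := fun x => by
    rw [g.symm_apply_apply, g.apply_symm_apply]
  obtain ⟨η, hη0, hmap⟩ := uc_map_iter (g := g) (φ := g.symm) hcm j η' hη'0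
  refine ⟨η, hη0, fun v s has hau => ?_⟩
  have hq : SR g η' (g.symm^[j] (v 0).val) (g.symm^[j] s) := hmap _ _ has
  obtain ⟨v', hv'⟩ := path_iter j v
  set s' := g.symm^[j] s with hs'
  have d2 : dist (v' 0).val s' ≤ η' := by rw [hv']; exact hq 0
  have d3 : ∀ t, dist (v' t).val s' ≤ c₁ + η' := by
    intro t
    have d1 : dist (v' 0).val (v' t).val ≤ c₁ := by rw [hv', hv']; exact hau t 0
    have := dist_triangle_left (v' t).val s' (v' 0).val
    linarith
  obtain ⟨Γ', hx', hy'⟩ := br_strip hg hbr hunif v' s' (fun t => by linarith [d3 t])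
  obtain ⟨Γ, hx, hy⟩ := strip_iter j Γ'
  have z0 : s' = br (v' 0).val s' := huniq _ _ _ (by linarith [d3 0])
    (by rw [hv']; exact hq.mono k1) (fun k => by rw [dist_self]; positivity)
  refine ⟨Γ, ?_, fun t => ?_, fun t => ?_⟩
  · rw [hy, hy', ← z0, hs', iterR]
  · rw [hx, hx', hv', iterR]
  · obtain ⟨z3, z4⟩ := hθ2 (v' t).val s' (by linarith [d3 t])
    have q1 : T.Q (h (v' 0).val) (h s') (h (v' t).val) (h (br (v' t).val s')) :=
      htiny _ _ _ _ (hS _ _ (by rw [hv']; exact hq.mono k5))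
        (hU _ _ (by rw [hv', hv']; exact (hau t).mono b4))
        (hS _ _ (z3.mono (min_le_left _ _))) (hU _ _ (z4.mono (min_le_right _ _)))
    have q2 := T.iterF q1 j
    rw [← H.iter, ← H.iter, ← H.iter, ← H.iter, hv', hv', hs', iterR, iterR, iterR] at q2
    rw [hy, hy', hs']
    rw [hv']
    exact q2

/-- the rows of a rectangle have a uniform level -/
theorem row_level [CompactSpace Y] (T : IQS k c₂) (hc₂ : 0 < c₂)
    (w : C(I, SM k.symm)) (q : Y) (y : I → Y)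
    (hy : ∀ t, T.Q (w 0).val q (w t).val (y t)) {ρ : ℝ} (hρ : 0 < ρ) :
    ∃ j, ∀ t, SR k.symm ρ (k.symm^[j] q) (k.symm^[j] (y t)) := by
  have hind : ∃ j, ∀ t ∈ (univ : Set I), SR k.symm ρ (k.symm^[j] q) (k.symm^[j] (y t)) := by
    refine isCompact_univ.induction_on (p := fun S : Set I => ∃ j, ∀ t ∈ S,
      SR k.symm ρ (k.symm^[j] q) (k.symm^[j] (y t))) ?_ ?_ ?_ ?_
    · exact ⟨0, fun t ht => absurd ht (notMem_empty t)⟩
    · rintro S S' hSS ⟨m, hm⟩
      exact ⟨m, fun t ht => hm t (hSS ht)⟩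
    · rintro S S' ⟨m, hm⟩ ⟨n, hn⟩
      refine ⟨max m n, fun t ht => ?_⟩
      rcases ht with ht | ht
      · exact SR_up (hm t ht) (le_max_left _ _)
      · exact SR_up (hn t ht) (le_max_right _ _)
    · rintro t₀ -
      obtain ⟨j₀, hj₀⟩ := (T.wU _ _ _ _ (hy t₀)).level12 (half_pos hρ)
      obtain ⟨j₁, hj₁⟩ := (T.wS _ _ _ _ (hy t₀)).level12 hc₂
      obtain ⟨η, hη, h1⟩ := T.contU j₁ (ρ / 2) (half_pos hρ)
      refine ⟨{t | dist (w t) (w t₀) < η}, ?_, j₀, fun t ht => ?_⟩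
      · exact mem_nhdsWithin_of_mem_nhds
          ((Metric.tendsto_nhds.mp (w.continuous.tendsto t₀)) η hη)
      · have ht' : dist (w t₀) (w t) ≤ η := by rw [dist_comm]; exact (le_of_lt ht)
        have e1 : SR k.symm η (w t₀).val (w t).val := (SM.dist_le _ _ hη.le).mp ht'
        have e2 : T.Q (w t₀).val (y t₀) (w t).val (y t) :=
          T.compU _ _ _ _ _ _ (T.flipU _ _ _ _ (hy t₀)) (hy t)
        have e3 := h1 _ _ _ _ e2 e1 hj₁
        have := hj₀.tr (e3.shift j₀)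
        rwa [add_halves] at this
  obtain ⟨j, hj⟩ := hind
  exact ⟨j, fun t => hj t (mem_univ t)⟩

/-- **Strips lift along light semiconjugacies.** -/
theorem lf_of_light [CompactSpace Y] (H : SC g k h) (hX : ULC X) (hg : LP g c) (hk : LP k c')
    (hc₂ : 0 < c₂) (T : IQS k c₂)
    (hL : ∀ ε > 0, ∃ ρ > 0, ∀ β : C(I, SM g.symm),
      (∀ t, SR k.symm ρ (h (β 0).val) (h (β t).val)) → ∀ t, SR g.symm ε (β 0).val (β t).val) :
    ∀ a s, WS g a s → Lf g a s := by
  intro a s has v hv0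
  obtain ⟨c₁, hc₁, hc₁c, hsl⟩ := SC.slide_loc H hg T
  obtain ⟨ρ, hρ, hsm⟩ := hL c₁ hc₁
  obtain ⟨ρ₀, hρ₀, hst⟩ := iqs_stab hk T hρ
  obtain ⟨τ, hτ0, hτ1⟩ := leaf_conn hg hX a s has
  have hτa : ∀ r, WS g a (τ r).val := fun r => by
    have := WS_of_path hg τ 0 r
    rwa [hτ0] at this
  have hva : ∀ t, WS g.symm a (v t).val := fun t => by
    have := WS_of_path hg.symm v 0 t
    rwa [hv0] at this
  -- the image path
  have hwc : Continuous fun t : I => (⟨h (v t).val⟩ : SM k.symm) := by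
    rw [Metric.continuous_iff']
    intro t ε hε
    obtain ⟨δ, hδ, h1⟩ := H.mapU (half_pos hε)
    filter_upwards [(Metric.continuous_iff'.1 v.continuous) t δ hδ] with t' ht'
    have h2 : SR g.symm δ (v t').val (v t).val := (SM.dist_le _ _ hδ.le).mp ht'.le
    exact lt_of_le_of_lt ((SM.dist_le _ _ (half_pos hε).le).mpr (h1 _ _ h2)) (half_lt_self hε)
  let w : C(I, SM k.symm) := ⟨_, hwc⟩
  have hrow : ∀ r t, ∃ y, T.Q (h a) (h (τ r).val) (h (v t).val) y := fun r t =>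
    T.ex _ _ _ (SC.wS H (hτa r)) (SC.wU H (hva t))
  choose y hy using hrow
  let R : I → Prop := fun r => ∃ Γ : C(I, Pr g), (Γ 0).y = (τ r).val ∧
    (∀ t, (Γ t).x = (v t).val) ∧ ∀ t, h (Γ t).y = y r t
  have hstep : ∀ (j : ℕ) (η : ℝ), (∀ (v : C(I, SM g.symm)) (s : X), SR g η (v 0).val s →
      (∀ t, SR g.symm c₁ (g.symm^[j] (v 0).val) (g.symm^[j] (v t).val)) →
      ∃ Γ : C(I, Pr g), (Γ 0).y = s ∧ (∀ t, (Γ t).x = (v t).val) ∧
        ∀ t, T.Q (h (v 0).val) (h s) (h (v t).val) (h (Γ t).y)) →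
      ∀ r r' : I, SR g η (τ r).val (τ r').val →
      (∀ t, SR k.symm ρ (k.symm^[j] (h (τ r).val)) (k.symm^[j] (y r t))) → R r → R r' := by
    rintro j η hη r r' hrr hlev ⟨Γ, h1, h2, h3⟩
    let v₂ : C(I, SM g.symm) := ⟨fun t => (Γ t).snd, (qs_snd_cont g).comp Γ.continuous⟩
    obtain ⟨v₃, hv₃⟩ := path_iter j v₂
    have e1 : ∀ t, SR k.symm ρ (h (v₃ 0).val) (h (v₃ t).val) := by
      intro t
      rw [hv₃, hv₃, H.iter', H.iter']
      show SR k.symm ρ (k.symm^[j] (h (Γ 0).y)) (k.symm^[j] (h (Γ t).y))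
      rw [h1, h3]
      exact hlev t
    have e2 := hsm v₃ e1
    obtain ⟨Γ₂, g1, g2, g3⟩ := hη v₂ (τ r').val
      (by show SR g η (Γ 0).y _; rw [h1]; exact hrr)
      (fun t => by rw [← hv₃, ← hv₃]; exact e2 t)
    obtain ⟨Γ', p1, p2⟩ := strip_comp Γ Γ₂ (fun t => g2 t)
    refine ⟨Γ', by rw [p2, g1], fun t => by rw [p1, h2], fun t => ?_⟩
    rw [p2]
    have q1 : T.Q (h (τ r).val) (h (τ r').val) (y r t) (h (Γ₂ t).y) := by
      have := g3 t
      have q0 : h (v₂ 0).val = h (τ r).val := by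
        show h (Γ 0).y = _
        rw [h1]
      have q0' : h (v₂ t).val = y r t := h3 t
      rwa [q0, q0'] at this
    exact T.unique _ _ _ _ _ (T.compS _ _ _ _ _ _ (hy r t) q1) (hy r' t)
  have hall : R 0 → R 1 :=
    PreconnectedSpace.induction₂' (fun r r' : I => R r → R r')
      (fun r => by
        obtain ⟨j, hj⟩ := row_level T hc₂ w (h (τ r).val) (y r)
          (fun t => by
            show T.Q (h (v 0).val) _ _ _
            rw [hv0]
            exact hy r t) (lt_min hρ hρ₀)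
        obtain ⟨η₁, hη₁, hη₁2⟩ := hst j
        obtain ⟨η₂, hη₂, hη₂2⟩ := H.mapS hη₁
        obtain ⟨η, hη, hη3⟩ := hsl j
        have h1 : ∀ᶠ r' in 𝓝 r, dist (τ r') (τ r) < min η₂ η :=
          (Metric.tendsto_nhds.mp (τ.continuous.tendsto r)) _ (lt_min hη₂ hη)
        filter_upwards [h1] with r' hr'
        have h4 : SR g (min η₂ η) (τ r).val (τ r').val := by
          rw [dist_comm] at hr'
          exact (SM.dist_le _ _ (lt_min hη₂ hη).le).mp hr'.le
        have h5 : ∀ t, T.Q (h (τ r).val) (h (τ r').val) (y r t) (y r' t) := fun t =>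
          T.compS _ _ _ _ _ _ (T.flipS _ _ _ _ (hy r t)) (hy r' t)
        have h6 : ∀ t, SR k.symm ρ (k.symm^[j] (h (τ r').val)) (k.symm^[j] (y r' t)) := fun t =>
          hη₁2 _ _ _ _ (hη₂2 _ _ (h4.mono (min_le_left _ _)))
            ((hj t).mono (min_le_right _ _)) (h5 t)
        exact ⟨hstep j η hη3 r r' (h4.mono (min_le_right _ _))
            (fun t => (hj t).mono (min_le_left _ _)),
          hstep j η hη3 r' r (h4.symm'.mono (min_le_right _ _)) h6⟩)
      ⟨fun _ _ _ h1 h2 h3 => h2 (h1 h3)⟩ 0 1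
  have hR0 : R 0 := by
    have hcont : Continuous fun t : I => (⟨(v t).val, (v t).val, WS.refl _ _⟩ : Pr g) := by
      rw [Pr.continuous_iff]
      refine ⟨v.continuous, v.continuous, fun a ε hε => ⟨0, Eventually.of_forall fun t k _ => ?_⟩⟩
      show dist (g^[k] (v t).val) (g^[k] (v t).val) ≤ ε
      rw [dist_self]
      exact hε.le
    refine ⟨⟨_, hcont⟩, ?_, fun t => rfl, fun t => ?_⟩
    · show (v 0).val = (τ 0).val
      rw [hv0, hτ0]
    · show h (v t).val = y 0 t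
      have h1 := hy 0 t
      rw [hτ0] at h1
      exact T.unique _ _ _ _ _ (qs_degU T.toQS (SC.wU H (hva t))) h1
  obtain ⟨Γ, h1, h2, -⟩ := hall hR0
  rw [hτ1] at h1
  exact ⟨(Γ 1).y, Γ, h1, rfl, h2⟩

end Pool.Agent.TH289.L
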