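import Pool.Agent.TH289.K.B2
import Pool.Agent.TH289.L.Def

set_option autoImplicit false
set_option linter.unusedSectionVars false

open Filter Topology Set Metric unitInterval

namespace Pool.Agent.TH289.L

open Pool.Agent.H789R2.AN Pool.Agent.H789R2.GP Pool.Agent.TH289.K

variable {X Y : Type*} [MetricSpace X] [MetricSpace Y] [CompactSpace X] {g : X ≃ₜ X} {k : Y ≃ₜ Y}
  {h : X → Y} {c c₁ : ℝ}

/-- close points of a fibre are on one local stable set, if the semiconjugacy is injective on the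
unstable leaves -/
theorem SC.fib_close (H : SC g k h) (hg : LP g c) {e : ℝ} (he0 : 0 < e) (hexp : Exp k e)
    (hinj : ∀ x y, WS g.symm x y → h x = h y → x = y) {ε : ℝ}
    (hε : 0 < ε) : ∃ δ > 0, ∀ x y, h x = h y → dist x y < δ → SR g ε x y := by
  obtain ⟨e1, he1, hS⟩ := H.mapS he0
  obtain ⟨e2, he2, hU⟩ := H.mapU he0
  obtain ⟨δ, hδ, hlp⟩ := hg.lp (min (min ε c) (min e1 e2)) (by have := hg.c_pos; positivity)
  refine ⟨δ, hδ, fun x y hxy hd => ?_⟩
  obtain ⟨z, hz1, hz2⟩ := hlp x y hd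
  have e3 : h x = h z := hexp _ _
    (hS _ _ (hz1.mono ((min_le_right _ _).trans (min_le_left _ _))))
    (by rw [hxy]; exact hU _ _ (hz2.mono ((min_le_right _ _).trans (min_le_right _ _))))
  have e4 : y = z := hinj _ _
    (WS.of_SR (hg.cU _ _ (hz2.mono ((min_le_left _ _).trans (min_le_right _ _)))))
    (hxy.symm.trans e3)
  rw [e4]
  exact hz1.mono ((min_le_left _ _).trans (min_le_left _ _))

/-- the fibre of a periodic point meets its stable leaf only in this point -/
theorem SC.fib_per (H : SC g k h) (hg : LP g c) {e : ℝ} (he0 : 0 < e) (hexp : Exp k e)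
    (hinj : ∀ x y, WS g.symm x y → h x = h y → x = y) {p y : X} {N : ℕ}
    (hN : 1 ≤ N) (hp : g^[N] p = p) (hy : WS g p y) (he : h p = h y) : y = p := by
  obtain ⟨δ, hδ, hfib⟩ := SC.fib_close H hg he0 hexp hinj hg.c_pos
  have hpm : ∀ n : ℕ, g^[N * n] p = p := fun n => by
    rw [Function.iterate_mul]
    exact Function.iterate_fixed hp n
  have hkm : ∀ n : ℕ, k.symm^[N * n] (h p) = h p := fun n => by
    have h1 : k^[N * n] (h p) = h p := by rw [← H.iter, hpm]
    have h2 := iterL k (N * n) (h p)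
    rwa [h1] at h2
  let y' : ℕ → X := fun n => g.symm^[N * n] y
  have hy' : ∀ n, h (y' n) = h p := fun n => by
    show h (g.symm^[N * n] y) = h p
    rw [H.iter', ← he, hkm]
  have hws : ∀ n, WS g p (y' n) := fun n => by
    have h1 : WS g (g^[N * n] p) (g^[N * n] (y' n)) := by
      rw [hpm]
      show WS g p (g^[N * n] (g.symm^[N * n] y))
      rw [iterR]
      exact hy
    exact (WS.iter (N * n)).mp h1
  obtain ⟨z, φ, hφ, hz⟩ := CompactSpace.tendsto_subseq y'
  have hhz : h z = h p := by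
    have h1 : Tendsto (fun n => h (y' (φ n))) atTop (𝓝 (h z)) :=
      (H.cont.tendsto z).comp hz
    have h2 : (fun n => h (y' (φ n))) = fun _ => h p := funext fun n => hy' _
    rw [h2] at h1
    exact tendsto_nhds_unique h1 tendsto_const_nhds
  obtain ⟨n₀, hn₀⟩ := (Metric.tendsto_atTop.mp hz) δ hδ
  have hsr : ∀ n ≥ n₀, SR g c (y' (φ n)) z := fun n hn =>
    hfib _ _ ((hy' _).trans hhz.symm) (hn₀ n hn)
  have hzp : WS g z p :=
    ((hws (φ n₀)).trans (WS.of_SR (hg.cS _ _ (hsr n₀ le_rfl)))).symm'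
  refine dist_le_zero.mp (le_of_forall_pos_lt_add fun ε hε => ?_)
  rw [zero_add]
  obtain ⟨M₁, hM₁⟩ := exists_pow_lt (c := c) (half_pos hε)
  obtain ⟨M₂, hM₂⟩ := hzp.eventually_lt (half_pos hε)
  set n := max n₀ (max M₁ M₂) with hn
  have hnφ : n ≤ φ n := hφ.id_le n
  have hm : n ≤ N * φ n := hnφ.trans (Nat.le_mul_of_pos_left _ hN)
  have h1 := hg.cS _ _ (hsr n (le_max_left _ _)) (N * φ n)
  have h2 := hM₂ (N * φ n) (((le_max_right _ _).trans (le_max_right _ _)).trans hm)
  have h3 := hM₁ (N * φ n) (((le_max_left _ _).trans (le_max_right _ _)).trans hm)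
  have h4 : g^[N * φ n] (y' (φ n)) = y := by
    show g^[N * φ n] (g.symm^[N * φ n] y) = y
    rw [iterR]
  rw [h4] at h1
  rw [hpm] at h2
  have := dist_triangle y (g^[N * φ n] z) p
  linarith

/-- **Local injectivity** if one periodic point is isolated in its fibre along its unstable leaf. -/
theorem SC.local_inj_one [ConnectedSpace X] (H : SC g k h) (hg : LP g c) (hX : ULC X)
    (hc₁ : 0 < c₁) (T₁ : IQS g c₁) {e : ℝ} (he0 : 0 < e) (hexp : Exp k e) {p : X} {N : ℕ}
    (hN : 1 ≤ N) (hp : g^[N] p = p) (hC2' : ∀ y, WS g.symm p y → h p = h y → y = p) :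
    ∃ δ > 0, ∀ x y, dist x y < δ → h x = h y → x = y := by
  have hp' : g.symm^[N] p = p := by
    have := iterL g N p
    rwa [hp] at this
  have hinj : ∀ x y, WS g.symm x y → h x = h y → x = y := fun x y hxy he =>
    H.symm.stable_inj hg.symm hc₁ T₁.symm
      (fun a s u x hQ hh => T₁.deg hg hc₁ hX H he0 hexp hQ hh)
      hN hp' hC2' (T₁.symm.surj hg.symm hc₁ p) hxy he
  exact H.local_inj hg hX hc₁ T₁ he0 hexp hN hp
    (fun y hy he => SC.fib_per H hg he0 hexp hinj hN hp hy he) hC2'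

end Pool.Agent.TH289.L
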