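import Pool.Agent.TH289.K.B3
import Pool.Agent.TH289.L.P1
import Pool.Agent.TH289.L.P2
import Pool.Agent.TH761.L289.Unif

set_option autoImplicit false
set_option linter.unusedSectionVars false

open Filter Topology Set Metric
open scoped Manifold ContDiff

namespace Pool.Agent.TH289.L

open Pool.Agent.H721R2 Pool.Agent.H789R2.AN Pool.Agent.H789R2.GP Pool.Agent.TH289
open Pool.Agent.TH289.K
open Pool.Agent.TH761.L289 (light_unif)
open Pool.Agent.W740.TU (anosov_symm transitive_symm)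

/-- a periodic point with finitely many asymptotic points in its fibre is isolated -/
theorem fib_isolated {X Y : Type*} [MetricSpace X] [MetricSpace Y] {φ : X ≃ₜ X} {ψ : Y ≃ₜ Y}
    {h : X → Y} (H : SC φ ψ h) {p : X} {q : ℕ} (hq : 1 ≤ q) (hp : φ^[q] p = p)
    (hfin : (h ⁻¹' {h p} ∩ {y | WS φ p y}).Finite) :
    ∀ y, WS φ p y → h p = h y → y = p := by
  intro y hy he
  have hhp : ψ^[q] (h p) = h p := by rw [← H.iter, hp]
  have hit : ∀ n : ℕ, WS φ p (φ^[q * n] y) ∧ h (φ^[q * n] y) = h p := by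
    intro n
    induction n with
    | zero => exact ⟨hy, he.symm⟩
    | succ n ih =>
      rw [Nat.mul_succ, Nat.add_comm, Function.iterate_add_apply]
      refine ⟨?_, ?_⟩
      · have := (WS.iter (g := φ) q).mpr ih.1
        rwa [hp] at this
      · rw [H.iter, ih.2, hhp]
  have hmaps : ∀ n : ℕ, φ^[q * n] y ∈ h ⁻¹' {h p} ∩ {y | WS φ p y} :=
    fun n => ⟨(hit n).2, (hit n).1⟩
  obtain ⟨m, n, hmn, hmn2⟩ : ∃ m n : ℕ, m < n ∧ φ^[q * m] y = φ^[q * n] y := by
    by_contra hcon
    push Not at hcon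
    have hinj : Function.Injective fun n : ℕ => φ^[q * n] y := by
      intro m n hmn
      rcases lt_trichotomy m n with h' | h' | h'
      · exact absurd hmn (hcon m n h')
      · exact h'
      · exact absurd hmn.symm (hcon n m h')
    exact (Set.infinite_of_injective_forall_mem hinj hmaps) hfin
  obtain ⟨d, rfl⟩ := Nat.exists_eq_add_of_lt hmn
  have hper : φ^[q * (d + 1)] y = y := by
    apply φ.injective.iterate (q * m)
    rw [← Function.iterate_add_apply, ← Nat.mul_add, ← Nat.add_assoc]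
    exact hmn2.symm
  have hperp : φ^[q * (d + 1)] p = p := by
    rw [Function.iterate_mul]
    exact Function.iterate_fixed hp _
  have hlim : Tendsto (fun n : ℕ => dist (φ^[q * (d + 1) * n] p) (φ^[q * (d + 1) * n] y)) atTop
      (𝓝 0) := by
    have h5 : Tendsto (fun n : ℕ => q * (d + 1) * n) atTop atTop :=
      tendsto_id.const_mul_atTop' (by positivity)
    exact hy.comp h5
  have hconst : (fun n : ℕ => dist (φ^[q * (d + 1) * n] p) (φ^[q * (d + 1) * n] y)) =
      fun _ => dist p y := by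
    funext n
    rw [Function.iterate_mul φ (q * (d + 1)) n, Function.iterate_fixed hperp,
      Function.iterate_fixed hper]
  rw [hconst] at hlim
  have h6 := tendsto_nhds_unique hlim tendsto_const_nhds
  exact (dist_eq_zero.mp h6.symm).symm

/-- lightness for the iterate -/
theorem light_iter {X Y : Type*} [MetricSpace X] [CompactSpace X] {f : X ≃ₜ X} {N : ℕ}
    (hN : 1 ≤ N) {h : X → Y} (hL : Light f.symm h) : Light (iterHomeo f N).symm h := by
  intro C hC1 hC2 hC3 hC4
  refine hL C hC1 hC2 (fun 𝒰 h𝒰 => ?_) hC4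
  rw [nhdsSet_diagonal_eq_uniformity, Metric.mem_uniformity_dist] at h𝒰
  obtain ⟨ε, hε, h2⟩ := h𝒰
  obtain ⟨η, hη, h3⟩ := T1_unif f.symm N hε
  have h4 : {p : X × X | dist p.1 p.2 < η} ∈ 𝓝ˢ (diagonal X) := by
    rw [nhdsSet_diagonal_eq_uniformity]
    exact Metric.dist_mem_uniformity hη
  obtain ⟨n₀, hn₀⟩ := eventually_atTop.mp (hC3 _ h4)
  refine eventually_atTop.mpr ⟨N * n₀, fun n hn x hx y hy => h2 ?_⟩
  have hnn : n = n % N + N * (n / N) := (Nat.mod_add_div n N).symm
  have hle : n₀ ≤ n / N := (Nat.le_div_iff_mul_le (by omega)).mpr (by rwa [Nat.mul_comm])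
  have h5 : dist ((iterHomeo f N).symm^[n / N] x) ((iterHomeo f N).symm^[n / N] y) < η :=
    hn₀ _ hle x hx y hy
  rw [iterHomeo_symm_iter, iterHomeo_symm_iter] at h5
  rw [hnn, Function.iterate_add_apply, Function.iterate_add_apply]
  exact h3 (n % N) (Nat.mod_lt _ (by omega)).le _ _ h5

section abs

variable {X F : Type*} [MetricSpace X] [CompactSpace X] [NormedAddCommGroup F]
  [InnerProductSpace ℝ F] [FiniteDimensional ℝ F]
  {Y G : Type*} [MetricSpace Y] [CompactSpace Y] [NormedAddCommGroup G]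
  [InnerProductSpace ℝ G] [FiniteDimensional ℝ G]

/-- Light semiconjugacies pull back global product structure. -/
theorem abs_light {E : Type*} [NormedAddCommGroup E]
    [NormedSpace ℝ E] [ProperSpace E] [ChartedSpace E X] [ConnectedSpace X]
    {E' : Type*} [NormedAddCommGroup E'] [NormedSpace ℝ E'] [ProperSpace E'] [ChartedSpace E' Y]
    (S : HypSys X F) (S' : HypSys Y G) {f : X ≃ₜ X} {f' : Y ≃ₜ Y} {N : ℕ} (hN : 1 ≤ N)
    (hf : S.g = iterHomeo f N) (hf' : S'.g = iterHomeo f' N) {h : X → Y}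
    (H : SC f f' h) (hL : Light f.symm h) (hG : GPS f') : GPS f := by
  obtain ⟨c, hg⟩ := exists_LP S
  obtain ⟨c', hk⟩ := exists_LP S'
  have hX : ULC X := ulc_of_charted (X := X) (E := E)
  have hY : ULC Y := ulc_of_charted (X := Y) (E := E')
  obtain ⟨c₂, hc₂, ⟨T⟩⟩ := iqs_of_gps hN hf' hk hY hG
  have H' : SC S.g S'.g h := ⟨H.cont, fun x => by
    rw [hf, hf']
    exact H.iter N x⟩
  have hL' : Light S.g.symm h := by
    rw [hf]
    exact light_iter hN hL
  have hlf := lf_of_light H' hX hg hk hc₂ T (fun ε hε => light_unif hg H' hL' hε)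
  obtain ⟨c₁, hc₁, ⟨T₁⟩⟩ := exists_IQS hg hX hlf
  exact gps_of_iqs hN hf hg hc₁ T₁

/-- Expansive factors with one fibre that is finite along a leaf, unstable form. -/
theorem abs_exp_one {E : Type*} [NormedAddCommGroup E]
    [NormedSpace ℝ E] [ProperSpace E] [ChartedSpace E X] [ConnectedSpace X]
    (S : HypSys X F) {f : X ≃ₜ X} {f' : Y ≃ₜ Y} {N : ℕ} (hN : 1 ≤ N)
    (hf : S.g = iterHomeo f N) {h : X → Y}
    (H : SC f f' h) {e : ℝ} (he0 : 0 < e) (hexp : Exp (iterHomeo f' N) e) (hG : GPS f) {p : X}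
    (hp : p ∈ Function.periodicPts f)
    (hfin : (h ⁻¹' {h p} ∩ {y | Asym f p y}).Finite ∨
      (h ⁻¹' {h p} ∩ {y | Asym f.symm p y}).Finite) :
    ∃ δ > 0, ∀ x y, dist x y < δ → h x = h y → x = y := by
  obtain ⟨c, hg⟩ := exists_LP S
  have hX : ULC X := ulc_of_charted (X := X) (E := E)
  obtain ⟨c₁, hc₁, ⟨T₁⟩⟩ := iqs_of_gps hN hf hg hX hG
  obtain ⟨q, hq, hqp⟩ := hp
  have hqp' : f^[q] p = p := hqp
  have H' : SC S.g (iterHomeo f' N) h := ⟨H.cont, fun x => by
    rw [hf]
    exact H.iter N x⟩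
  have hpN : S.g^[q] p = p := by
    rw [hf, iterHomeo_iter, Nat.mul_comm, Function.iterate_mul]
    exact Function.iterate_fixed hqp' N
  have hpf : f.symm^[q] p = p := by
    have := iterL f q p
    rwa [hqp'] at this
  have hpN' : S.g.symm^[q] p = p := by
    have := iterL S.g q p
    rwa [hpN] at this
  rcases hfin with hfin | hfin
  · have h1 : ∀ y, WS f p y → h p = h y → y = p := by
      refine fib_isolated H hq hqp' ?_
      convert hfin using 4
      exact (asym_iff f p _).symm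
    refine SC.local_inj_one H'.symm hg.symm hX hc₁ T₁.symm he0 hexp.symm hq hpN' ?_
    intro y hy he
    refine h1 y ?_ he
    have hy' : WS S.g p y := hy
    rw [hf] at hy'
    exact (WS_iter_iff f hN p y).mp hy'
  · have h1 : ∀ y, WS f.symm p y → h p = h y → y = p := by
      refine fib_isolated H.symm hq hpf ?_
      convert hfin using 4
      exact (asym_iff f.symm p _).symm
    refine SC.local_inj_one H' hg hX hc₁ T₁ he0 hexp hq hpN ?_
    intro y hy he
    refine h1 y ?_ he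
    rw [hf, iterHomeo_symm] at hy
    exact (WS_iter_iff f.symm hN p y).mp hy

end abs

section manifold

variable {E : Type*} [NormedAddCommGroup E] [NormedSpace ℝ E] [FiniteDimensional ℝ E]
  {M : Type*} [TopologicalSpace M] [T2Space M] [CompactSpace M] [ConnectedSpace M]
  [ChartedSpace E M] [IsManifold 𝓘(ℝ, E) ∞ M]

/-- **Light semiconjugacies pull back global product structure**, unstable form. -/
theorem man_light_unst {E' : Type*} [NormedAddCommGroup E'] [NormedSpace ℝ E']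
    [FiniteDimensional ℝ E'] {M' : Type*} [TopologicalSpace M'] [T2Space M'] [CompactSpace M']
    [ChartedSpace E' M'] [IsManifold 𝓘(ℝ, E') ∞ M'] (f : Diffeomorph 𝓘(ℝ, E) 𝓘(ℝ, E) M M 1)
    (Es Eu : ∀ x : M, Submodule ℝ (TangentSpace 𝓘(ℝ, E) x)) (hA : IsAnosov f Es Eu)
    (g : Diffeomorph 𝓘(ℝ, E') 𝓘(ℝ, E') M' M' 1)
    (Es' Eu' : ∀ x : M', Submodule ℝ (TangentSpace 𝓘(ℝ, E') x)) (hB : IsAnosov g Es' Eu')
    (h : M → M') (hc : Continuous h) (hh : ∀ x, h (f x) = g (h x))
    (hi : Light f.toHomeomorph.symm h) (hG : GPS g.toHomeomorph) : GPS f.toHomeomorph := by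
  obtain ⟨m, ee, hee, hemb, hinje⟩ :=
    exists_embedding_euclidean_of_compact (I := 𝓘(ℝ, E)) (M := M)
  obtain ⟨m', ee', hee', hemb', hinje'⟩ :=
    exists_embedding_euclidean_of_compact (I := 𝓘(ℝ, E')) (M := M')
  let _ : MetricSpace M := hemb.isEmbedding.comapMetricSpace ee
  let _ : MetricSpace M' := hemb'.isEmbedding.comapMetricSpace ee'
  have hiso : ∀ x y : M, dist x y = ‖ee x - ee y‖ := fun x y => dist_eq_norm (ee x) (ee y)
  have hiso' : ∀ x y : M', dist x y = ‖ee' x - ee' y‖ := fun x y => dist_eq_norm (ee' x) (ee' y)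
  have he1 : ContMDiff 𝓘(ℝ, E) (𝓡 m) 1 ee := hee.of_le (by simp)
  have he1' : ContMDiff 𝓘(ℝ, E') (𝓡 m') 1 ee' := hee'.of_le (by simp)
  obtain ⟨N, ⟨⟨S, hg, -, -, -⟩, ⟨S', hg', -, -, -⟩⟩, hN⟩ :=
    (((exists_sys_ev hiso he1 hinje f Es Eu hA).and
      (exists_sys_ev hiso' he1' hinje' g Es' Eu' hB)).and (eventually_ge_atTop 1)).exists
  have : ProperSpace E := FiniteDimensional.proper_real E
  have : ProperSpace E' := FiniteDimensional.proper_real E'
  exact abs_light (E := E) (E' := E') S S' hN hg hg' (h := h) ⟨hc, hh⟩ hi hG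

/-- **Light semiconjugacies pull back global product structure.** -/
theorem man_light {E' : Type*} [NormedAddCommGroup E'] [NormedSpace ℝ E']
    [FiniteDimensional ℝ E'] {M' : Type*} [TopologicalSpace M'] [T2Space M'] [CompactSpace M']
    [ChartedSpace E' M'] [IsManifold 𝓘(ℝ, E') ∞ M'] (f : Diffeomorph 𝓘(ℝ, E) 𝓘(ℝ, E) M M 1)
    (Es Eu : ∀ x : M, Submodule ℝ (TangentSpace 𝓘(ℝ, E) x)) (hA : IsAnosov f Es Eu)
    (g : Diffeomorph 𝓘(ℝ, E') 𝓘(ℝ, E') M' M' 1)
    (Es' Eu' : ∀ x : M', Submodule ℝ (TangentSpace 𝓘(ℝ, E') x)) (hB : IsAnosov g Es' Eu')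
    (h : M → M') (hc : Continuous h) (hh : ∀ x, h (f x) = g (h x))
    (hi : Light f.toHomeomorph h ∨ Light f.toHomeomorph.symm h) (hG : GPS g.toHomeomorph) :
    TopTransitive f ∧ GPS f.toHomeomorph ∧ ∃ π : E → M, IsCoveringMap π ∧ Function.Surjective π := by
  have key : GPS f.toHomeomorph := by
    rcases hi with hi | hi
    · have hh' : ∀ x, h (f.symm x) = g.symm (h x) := by
        intro x
        apply g.toHomeomorph.injective
        have h1 := hh (f.symm x)
        rw [f.apply_symm_apply] at h1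
        exact h1.symm.trans (g.apply_symm_apply (h x)).symm
      have h2 := man_light_unst f.symm Eu Es (anosov_symm f Es Eu hA) g.symm Eu' Es'
        (anosov_symm g Es' Eu' hB) h hc hh' hi
        (show GPS g.toHomeomorph.symm from GPS.symm hG)
      exact GPS.symm (show GPS f.toHomeomorph.symm from h2)
    · exact man_light_unst f Es Eu hA g Es' Eu' hB h hc hh hi hG
  obtain ⟨h1, h2⟩ := man_self f Es Eu hA key
  exact ⟨h1, key, h2⟩

/-- **Semiconjugacies to expansive homeomorphisms are locally injective**, if one periodic fibre is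
finite along one leaf. -/
theorem man_exp_one (f : Diffeomorph 𝓘(ℝ, E) 𝓘(ℝ, E) M M 1)
    (Es Eu : ∀ x : M, Submodule ℝ (TangentSpace 𝓘(ℝ, E) x)) (hA : IsAnosov f Es Eu)
    (hG : GPS f.toHomeomorph) {Y : Type*} [TopologicalSpace Y] [CompactSpace Y]
    [TopologicalSpace.MetrizableSpace Y] (g : Y ≃ₜ Y) (hg : Expansive g)
    (h : M → Y) (hc : Continuous h) (hh : ∀ x, h (f x) = g (h x)) {p : M}
    (hp : p ∈ Function.periodicPts f)
    (hfin : (h ⁻¹' {h p} ∩ {y | Asym f p y}).Finite ∨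
      (h ⁻¹' {h p} ∩ {y | Asym f.symm p y}).Finite) :
    ∀ x, ∃ U ∈ 𝓝 x, InjOn h U := by
  obtain ⟨m, ee, hee, hemb, hinje⟩ :=
    exists_embedding_euclidean_of_compact (I := 𝓘(ℝ, E)) (M := M)
  let _ : MetricSpace M := hemb.isEmbedding.comapMetricSpace ee
  let _ : MetricSpace Y := TopologicalSpace.metrizableSpaceMetric Y
  have hiso : ∀ x y : M, dist x y = ‖ee x - ee y‖ := fun x y => dist_eq_norm (ee x) (ee y)
  have he1 : ContMDiff 𝓘(ℝ, E) (𝓡 m) 1 ee := hee.of_le (by simp)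
  obtain ⟨N, ⟨S, hgS, -, -, -⟩, hN⟩ :=
    ((exists_sys_ev hiso he1 hinje f Es Eu hA).and (eventually_ge_atTop 1)).exists
  have : ProperSpace E := FiniteDimensional.proper_real E
  obtain ⟨e, he0, hexp⟩ := exp_of_expansive hg hN
  obtain ⟨δ, hδ, h3⟩ := abs_exp_one (E := E) S hN hgS (h := h) (f' := g) ⟨hc, hh⟩ he0 hexp hG hp
    hfin
  refine fun x => ⟨ball x (δ / 2), ball_mem_nhds _
    (half_pos hδ), fun y hy z hz hyz => h3 y z ?_ hyz⟩
  have := dist_triangle_right y z x
  rw [mem_ball] at hy hz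
  linarith

/-- **Expansive factors on manifolds are finite quotients.** -/
theorem man_exp_one_cover {E' : Type*} [NormedAddCommGroup E'] [NormedSpace ℝ E']
    [FiniteDimensional ℝ E'] {M' : Type*} [TopologicalSpace M'] [T2Space M'] [CompactSpace M']
    [ConnectedSpace M'] [ChartedSpace E' M'] (f : Diffeomorph 𝓘(ℝ, E) 𝓘(ℝ, E) M M 1)
    (Es Eu : ∀ x : M, Submodule ℝ (TangentSpace 𝓘(ℝ, E) x)) (hA : IsAnosov f Es Eu)
    (hG : GPS f.toHomeomorph) (g : M' ≃ₜ M') (hg : Expansive g)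
    (h : M → M') (hc : Continuous h) (hh : ∀ x, h (f x) = g (h x)) {p : M}
    (hp : p ∈ Function.periodicPts f)
    (hfin : (h ⁻¹' {h p} ∩ {y | Asym f p y}).Finite ∨
      (h ⁻¹' {h p} ∩ {y | Asym f.symm p y}).Finite)
    (hdim : Module.finrank ℝ E' ≤ Module.finrank ℝ E) :
    IsCoveringMap h ∧ Function.Surjective h ∧ (∀ y, (h ⁻¹' {y}).Finite) ∧ GPS g ∧
      TopTransitive g := by
  have hmet : TopologicalSpace.MetrizableSpace M' := Manifold.metrizableSpace 𝓘(ℝ, E') M'
  have h4 := man_exp_one f Es Eu hA hG g hg h hc hh hp hfin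
  obtain ⟨k1, k2, k3⟩ := Pool.Agent.TH553.K289.covering_of_locInj hdim hc h4
  refine ⟨k1, k2, k3, ?_, trans_factor hc k2 hh (man_self f Es Eu hA hG).1⟩
  obtain ⟨m, ee, hee, hemb, hinje⟩ :=
    exists_embedding_euclidean_of_compact (I := 𝓘(ℝ, E)) (M := M)
  let _ : MetricSpace M := hemb.isEmbedding.comapMetricSpace ee
  let _ : MetricSpace M' := TopologicalSpace.metrizableSpaceMetric M'
  refine gps_of_cover (f := f.toHomeomorph) (g := g) k1 k2 ?_ hh hG
  have hcomp : IsCompact (univ : Set M) := isCompact_univ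
  obtain ⟨δ, hδ, hleb⟩ := lebesgue_number_lemma_of_metric hcomp
    (c := fun x : M => interior (h4 x).choose) (fun x => isOpen_interior)
    (fun x _ => mem_iUnion.mpr ⟨x, mem_interior_iff_mem_nhds.mpr (h4 x).choose_spec.1⟩)
  refine ⟨δ, hδ, fun x y hxy he => ?_⟩
  obtain ⟨i, hi⟩ := hleb x (mem_univ x)
  exact (h4 i).choose_spec.2 (interior_subset (hi (mem_ball_self hδ)))
    (interior_subset (hi (by rw [mem_ball, dist_comm]; exact hxy))) he

/-- Anosov diffeomorphisms are expansive. -/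
theorem expansive_of_anosov (f : Diffeomorph 𝓘(ℝ, E) 𝓘(ℝ, E) M M 1)
    (Es Eu : ∀ x : M, Submodule ℝ (TangentSpace 𝓘(ℝ, E) x)) (hA : IsAnosov f Es Eu) :
    Expansive f.toHomeomorph := by
  obtain ⟨m, ee, hee, hemb, hinje⟩ :=
    exists_embedding_euclidean_of_compact (I := 𝓘(ℝ, E)) (M := M)
  let _ : MetricSpace M := hemb.isEmbedding.comapMetricSpace ee
  have hiso : ∀ x y : M, dist x y = ‖ee x - ee y‖ := fun x y => dist_eq_norm (ee x) (ee y)
  have he1 : ContMDiff 𝓘(ℝ, E) (𝓡 m) 1 ee := hee.of_le (by simp)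
  obtain ⟨N, ⟨S, hgS, -, -, -⟩, hN⟩ :=
    ((exists_sys_ev hiso he1 hinje f Es Eu hA).and (eventually_ge_atTop 1)).exists
  obtain ⟨c, hLP⟩ := exists_LP S
  rw [hgS] at hLP
  refine ⟨{q | dist q.1 q.2 < c}, ?_, fun x y hxy => ?_⟩
  · rw [nhdsSet_diagonal_eq_uniformity]
    exact Metric.dist_mem_uniformity hLP.c_pos
  · refine Pool.Agent.H789R2.GP.expansive hLP (fun n => ?_) (fun n => ?_)
    · rw [iterHomeo_iter, iterHomeo_iter]
      exact (hxy (N * n)).1.le
    · rw [iterHomeo_symm_iter, iterHomeo_symm_iter]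
      exact (hxy (N * n)).2.le

/-- **Light extensions with one fibre that is finite along a leaf are finite coverings.** -/
theorem man_finite_ext {E' : Type*} [NormedAddCommGroup E'] [NormedSpace ℝ E']
    [FiniteDimensional ℝ E'] {M' : Type*} [TopologicalSpace M'] [T2Space M'] [CompactSpace M']
    [ConnectedSpace M'] [ChartedSpace E' M'] [IsManifold 𝓘(ℝ, E') ∞ M']
    (f : Diffeomorph 𝓘(ℝ, E) 𝓘(ℝ, E) M M 1)
    (Es Eu : ∀ x : M, Submodule ℝ (TangentSpace 𝓘(ℝ, E) x)) (hA : IsAnosov f Es Eu)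
    (g : Diffeomorph 𝓘(ℝ, E') 𝓘(ℝ, E') M' M' 1)
    (Es' Eu' : ∀ x : M', Submodule ℝ (TangentSpace 𝓘(ℝ, E') x)) (hB : IsAnosov g Es' Eu')
    (h : M → M') (hc : Continuous h) (hh : ∀ x, h (f x) = g (h x))
    (hi : Light f.toHomeomorph h ∨ Light f.toHomeomorph.symm h) (hG : GPS g.toHomeomorph)
    {p : M} (hp : p ∈ Function.periodicPts f)
    (hfin : (h ⁻¹' {h p} ∩ {y | Asym f p y}).Finite ∨
      (h ⁻¹' {h p} ∩ {y | Asym f.symm p y}).Finite)
    (hdim : Module.finrank ℝ E' ≤ Module.finrank ℝ E) :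
    IsCoveringMap h ∧ Function.Surjective h ∧ (∀ y, (h ⁻¹' {y}).Finite) ∧
      GPS f.toHomeomorph := by
  obtain ⟨-, h2, -⟩ := man_light f Es Eu hA g Es' Eu' hB h hc hh hi hG
  obtain ⟨k1, k2, k3, -⟩ := man_exp_one_cover f Es Eu hA h2 g.toHomeomorph
    (expansive_of_anosov g Es' Eu' hB) h hc hh hp hfin hdim
  exact ⟨k1, k2, k3, h2⟩

end manifold

/-- A semiconjugacy that is injective on the local stable sets is light along the stable leaves. -/
theorem light_of_inj {M N : Type*} [TopologicalSpace M] {f : M ≃ₜ M} {g : N → N} {h : M → N}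
    (hh : ∀ x, h (f x) = g (h x)) (hi : Pool.Agent.W740.TU.UnstInj f h) : Light f h := by
  intro C _ _ hC3 hC4 x hx y hy
  obtain ⟨𝒰, h𝒰, h1⟩ := hi
  obtain ⟨n₀, hn₀⟩ := eventually_atTop.mp (hC3 𝒰 h𝒰)
  apply f.injective.iterate n₀
  refine h1 _ _ (fun n => ?_) ?_
  · rw [← Function.iterate_add_apply, ← Function.iterate_add_apply]
    exact hn₀ (n + n₀) (by omega) x hx y hy
  · have hit : ∀ z, h (f^[n₀] z) = g^[n₀] (h z) := fun z =>
      (Function.Semiconj.iterate_right (f := h) (ga := f) (gb := g) hh n₀) z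
    rw [hit, hit, hC4 x hx y hy]

/-- A map with totally disconnected fibres is light. -/
theorem light_of_disconnected {M N : Type*} [TopologicalSpace M] (f : M ≃ₜ M) (h : M → N)
    (hi : ∀ y, IsTotallyDisconnected (h ⁻¹' {y})) : Light f h := by
  intro C _ hC2 _ hC4
  rcases C.eq_empty_or_nonempty with rfl | ⟨x, hx⟩
  · exact Set.subsingleton_empty
  · exact hi (h x) C (fun y hy => hC4 y hy x hx) hC2

/-- A map with countable fibres is light. -/
theorem light_of_countable {M N : Type*} [TopologicalSpace M]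
    [TopologicalSpace.MetrizableSpace M] (f : M ≃ₜ M) (h : M → N)
    (hi : ∀ y, (h ⁻¹' {y}).Countable) : Light f h := by
  let _ : MetricSpace M := TopologicalSpace.metrizableSpaceMetric M
  exact light_of_disconnected f h fun y => (hi y).isTotallyDisconnected

end Pool.Agent.TH289.L
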