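import Pool.Agent.TH289.K.B3
import Pool.Agent.TH289.L.Def
import Pool.Agent.TH209.L289.OpenInj
import Pool.Agent.TH367.L289.OpenTrans

set_option autoImplicit false
set_option linter.unusedSectionVars false

open Filter Topology Set Metric
open scoped Manifold ContDiff

namespace Pool.Agent.TH289.L

open Pool.Agent.H721R2 Pool.Agent.H789R2.AN Pool.Agent.H789R2.GP Pool.Agent.TH289
open Pool.Agent.TH289.K
open Pool.Agent.TH209.L289 (open_local_inj)

/-- open locally injective maps of a compact space are finite coverings of their image -/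
theorem covering_of_open {M Y : Type*} [TopologicalSpace M] [T2Space M] [CompactSpace M]
    [TopologicalSpace Y] [T2Space Y] {h : M → Y} (hc : Continuous h) (hopen : IsOpenMap h)
    (hloc : ∀ x, ∃ U ∈ 𝓝 x, InjOn h U) :
    IsCoveringMap h ∧ ∀ y, (h ⁻¹' {y}).Finite := by
  have hlh : IsLocalHomeomorph h := by
    rw [isLocalHomeomorph_iff_isOpenEmbedding_restrict]
    intro x
    obtain ⟨U, hU, hi⟩ := hloc x
    refine ⟨interior U, interior_mem_nhds.2 hU, ?_⟩
    refine IsOpenEmbedding.of_continuous_injective_isOpenMap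
      (hc.comp continuous_subtype_val) ?_ (hopen.domRestrict isOpen_interior)
    exact (hi.mono interior_subset).injective
  refine ⟨isLocalHomeomorph_iff_isCoveringMap.1 hlh, fun y => ?_⟩
  have hcl : IsCompact (h ⁻¹' {y}) := (isClosed_singleton.preimage hc).isCompact
  choose U hU hi using hloc
  obtain ⟨t, ht, hcov⟩ := hcl.elim_nhds_subcover U (fun x _ => hU x)
  refine t.finite_toSet.subset fun p hp => ?_
  obtain ⟨x, hx, hpx⟩ := mem_iUnion₂.1 (hcov hp)
  have h1 : h p = h x := by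
    have h2 : h x = y := ht x hx
    have h3 : h p = y := hp
    rw [h2, h3]
  rw [hi x hpx (mem_of_mem_nhds (hU x)) h1]
  exact hx

/-- **Open extensions with one finite fibre over a dense orbit are finite coverings.** -/
theorem man_open {E : Type*} [NormedAddCommGroup E] [NormedSpace ℝ E] [FiniteDimensional ℝ E]
    {M : Type*} [TopologicalSpace M] [T2Space M] [CompactSpace M] [ConnectedSpace M]
    [ChartedSpace E M] [IsManifold 𝓘(ℝ, E) ∞ M]
    (f : Diffeomorph 𝓘(ℝ, E) 𝓘(ℝ, E) M M 1)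
    (Es Eu : ∀ x : M, Submodule ℝ (TangentSpace 𝓘(ℝ, E) x)) (hA : IsAnosov f Es Eu)
    {Y : Type*} [TopologicalSpace Y] [CompactSpace Y] [TopologicalSpace.MetrizableSpace Y]
    (g : Y ≃ₜ Y) (hg : Expansive g) (ht : TopTransitive g)
    (h : M → Y) (hc : Continuous h) (ho : IsOpenMap h) (hh : ∀ x, h (f x) = g (h x)) {y₀ : Y}
    (hy₀ : (h ⁻¹' {y₀}).Finite) (hd : Dense {z | ∃ n : ℕ, g^[n] y₀ = z ∨ g^[n] z = y₀}) :
    TopTransitive f ∧ IsCoveringMap h ∧ Function.Surjective h ∧ ∀ y, (h ⁻¹' {y}).Finite := by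
  obtain ⟨m, ee, hee, hemb, hinje⟩ :=
    exists_embedding_euclidean_of_compact (I := 𝓘(ℝ, E)) (M := M)
  let _ : MetricSpace M := hemb.isEmbedding.comapMetricSpace ee
  let _ : MetricSpace Y := TopologicalSpace.metrizableSpaceMetric Y
  have hiso : ∀ x y : M, dist x y = ‖ee x - ee y‖ := fun x y => dist_eq_norm (ee x) (ee y)
  have he1 : ContMDiff 𝓘(ℝ, E) (𝓡 m) 1 ee := hee.of_le (by simp)
  obtain ⟨N, ⟨S, hgS, -, -, -⟩, hN⟩ :=
    ((exists_sys_ev hiso he1 hinje f Es Eu hA).and (eventually_ge_atTop 1)).exists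
  obtain ⟨e, he0, hexp⟩ := exp_of_expansive hg hN
  obtain ⟨c, hLP⟩ := exists_LP S
  rw [hgS] at hLP
  have H : SC f.toHomeomorph g h := ⟨hc, hh⟩
  have hinj := open_local_inj hN hLP H he0 hexp ho ht hy₀ hd
  have htr := open_trans hN hLP H ho ht hinj
  obtain ⟨δ, hδ, h3⟩ := hinj
  have hloc : ∀ x, ∃ U ∈ 𝓝 x, InjOn h U := by
    refine fun x => ⟨ball x (δ / 2), ball_mem_nhds _
      (half_pos hδ), fun y hy z hz hyz => h3 y z ?_ hyz⟩
    have := dist_triangle_right y z x
    rw [mem_ball] at hy hz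
    linarith
  obtain ⟨k1, k2⟩ := covering_of_open hc ho hloc
  refine ⟨htr, k1, ?_, k2⟩
  rw [← range_eq_univ, eq_univ_iff_forall]
  by_contra hcon
  push Not at hcon
  obtain ⟨z, hz⟩ := hcon
  have hcl : IsClosed (range h) := (isCompact_range hc).isClosed
  obtain ⟨x⟩ : Nonempty M := inferInstance
  obtain ⟨n, w, ⟨_, ⟨u, rfl⟩, hu⟩, hw⟩ := ht (range h) (range h)ᶜ ho.isOpen_range ⟨h x, x, rfl⟩
    hcl.isOpen_compl ⟨z, hz⟩
  apply hw
  rw [← hu, ← H.iter]
  exact ⟨_, rfl⟩

end Pool.Agent.TH289.L
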