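import Pool.Agent.Helper475.Miranda

/-!
# Light maps of the cube of `ℝⁿ` into `ℝⁿ` have images with nonempty interior
-/

set_option autoImplicit false

open Set Filter Topology Metric

namespace Pool.Agent.TH289.L

/-- Separation of the preimages of small closed sets under a light map. -/
theorem light_sep {X Z : Type*} [MetricSpace X] [CompactSpace X] [MetricSpace Z] {φ : X → Z}
    (hφ : Continuous φ) (hl : ∀ y, IsTotallyDisconnected (φ ⁻¹' {y})) {A B : Set X}
    (hA : IsClosed A) (hB : IsClosed B) (hAB : Disjoint A B) :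
    ∃ ε > 0, ∀ D : Set Z, IsClosed D → ∀ y ∈ range φ, D ⊆ ball y ε →
      ∃ P Q : Set X, IsClosed P ∧ IsClosed Q ∧ P ∪ Q = φ ⁻¹' D ∧ Disjoint P Q ∧ Disjoint P B ∧
        Disjoint Q A := by
  have key : ∀ y : Z, ∃ U V : Set X, IsOpen U ∧ IsOpen V ∧ Disjoint U V ∧ A ⊆ U ∧ B ⊆ V ∧
      ∃ r > 0, φ ⁻¹' ball y r ⊆ U ∪ V := by
    intro y
    have hF : IsClosed (φ ⁻¹' {y}) := isClosed_singleton.preimage hφ
    have hFc : CompactSpace (φ ⁻¹' {y}) := isCompact_iff_compactSpace.mp hF.isCompact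
    have hFt : TotallyDisconnectedSpace (φ ⁻¹' {y}) :=
      totallyDisconnectedSpace_subtype_iff.mpr (hl y)
    obtain ⟨C, hC, hAC, hCB⟩ := exists_clopen_of_closed_subset_open
      (X := φ ⁻¹' {y}) (Z := Subtype.val ⁻¹' A) (U := Subtype.val ⁻¹' Bᶜ)
      (hA.preimage continuous_subtype_val) (hB.isOpen_compl.preimage continuous_subtype_val)
      (fun x hx hxB => (Set.disjoint_left.mp hAB) hx hxB)
    have h1 : IsClosed ((Subtype.val : (φ ⁻¹' {y}) → X) '' C) :=
      (hC.1.isCompact.image continuous_subtype_val).isClosed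
    have h2 : IsClosed ((Subtype.val : (φ ⁻¹' {y}) → X) '' Cᶜ) :=
      (hC.2.isClosed_compl.isCompact.image continuous_subtype_val).isClosed
    have h3 : Disjoint (A ∪ (Subtype.val : (φ ⁻¹' {y}) → X) '' C)
        (B ∪ (Subtype.val : (φ ⁻¹' {y}) → X) '' Cᶜ) := by
      rw [Set.disjoint_left]
      rintro x (hx | ⟨x, hx, rfl⟩) (hx' | ⟨x', hx', e⟩)
      · exact Set.disjoint_left.mp hAB hx hx'
      · subst e
        exact hx' (hAC hx)
      · exact hCB hx hx'
      · exact hx' (by rwa [← Subtype.ext e] at hx)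
    obtain ⟨U, V, hU, hV, hAU, hBV, hUV⟩ := normal_separation
      (hA.union h1) (hB.union h2) h3
    refine ⟨U, V, hU, hV, hUV, subset_union_left.trans hAU, subset_union_left.trans hBV, ?_⟩
    have h4 : IsClosed (φ '' (U ∪ V)ᶜ) :=
      ((hU.union hV).isClosed_compl.isCompact.image hφ).isClosed
    have h5 : y ∉ φ '' (U ∪ V)ᶜ := by
      rintro ⟨x, hx, rfl⟩
      refine hx ?_
      by_cases hxC : (⟨x, rfl⟩ : φ ⁻¹' {φ x}) ∈ C
      · exact Or.inl (hAU (Or.inr ⟨_, hxC, rfl⟩))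
      · exact Or.inr (hBV (Or.inr ⟨_, hxC, rfl⟩))
    obtain ⟨r, hr, hr'⟩ := Metric.isOpen_iff.mp h4.isOpen_compl y h5
    refine ⟨r, hr, fun x hx => ?_⟩
    by_contra h
    exact hr' hx ⟨x, h, rfl⟩
  choose U V hU hV hUV hAU hBV r hr hsub using key
  have hK : IsCompact (range φ) := isCompact_range hφ
  obtain ⟨ε, hε, hleb⟩ := lebesgue_number_lemma_of_metric hK (c := fun y : Z => ball y (r y))
    (fun y => isOpen_ball) (fun y _ => mem_iUnion.mpr ⟨y, mem_ball_self (hr y)⟩)
  refine ⟨ε, hε, fun D hD y hy hDy => ?_⟩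
  obtain ⟨z, hz⟩ := hleb y hy
  have hsub' : φ ⁻¹' D ⊆ U z ∪ V z := fun x hx => hsub z (hz (hDy hx))
  refine ⟨φ ⁻¹' D \ V z, φ ⁻¹' D \ U z, (hD.preimage hφ).sdiff (hV z),
    (hD.preimage hφ).sdiff (hU z), ?_, ?_, ?_, ?_⟩
  · ext x
    constructor
    · rintro (h | h)
      · exact h.1
      · exact h.1
    · intro h
      by_cases hx : x ∈ V z
      · exact Or.inr ⟨h, fun hx' => Set.disjoint_left.mp (hUV z) hx' hx⟩
      · exact Or.inl ⟨h, hx⟩
  · rw [Set.disjoint_left]
    rintro x ⟨h1, h2⟩ ⟨_, h3⟩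
    exact (hsub' h1).elim h3 h2
  · rw [Set.disjoint_left]
    rintro x ⟨_, h2⟩ h3
    exact h2 (hBV z h3)
  · rw [Set.disjoint_left]
    rintro x ⟨_, h2⟩ h3
    exact h2 (hAU z h3)

/-- a box of the decomposition: the coordinates with label `(true, r)` are `s`-close to the integer
`r`, those with label `(false, k)` are in `[k + t, k + 1 - t]` -/
def box {n : ℕ} (s t : ℝ) (L : Fin n → Bool × ℤ) : Set (Fin n → ℝ) :=
  {z | ∀ j, ((L j).1 = true → |z j - (L j).2| ≤ s) ∧
    ((L j).1 = false → (L j).2 + t ≤ z j ∧ z j ≤ (L j).2 + 1 - t)}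

theorem box_closed {n : ℕ} (s t : ℝ) (L : Fin n → Bool × ℤ) : IsClosed (box s t L) := by
  unfold box
  simp only [ofPred_forall, ofPred_and]
  refine isClosed_iInter fun j => (isClosed_iInter fun _ => ?_).inter
    (isClosed_iInter fun _ => IsClosed.inter ?_ ?_)
  · exact isClosed_le (by fun_prop) continuous_const
  · exact isClosed_le continuous_const (by fun_prop)
  · exact isClosed_le (by fun_prop) continuous_const

theorem box_disj {n : ℕ} {s t : ℝ} (hst : s < t) (ht : t < 1 / 2) (hs : 0 ≤ s)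
    {L L' : Fin n → Bool × ℤ} {z : Fin n → ℝ} (h : z ∈ box s t L) (h' : z ∈ box s t L') :
    L = L' := by
  funext j
  obtain ⟨a1, a2⟩ := h j
  obtain ⟨b1, b2⟩ := h' j
  rcases hL : L j with ⟨c, r⟩
  rcases hL' : L' j with ⟨c', r'⟩
  rw [hL] at a1 a2
  rw [hL'] at b1 b2
  cases c <;> cases c'
  · have a3 := a2 rfl
    have b3 := b2 rfl
    simp only at a3 b3
    have e1 : (r : ℝ) < r' + 1 := by linarith [a3.1, b3.2]
    have e2 : (r' : ℝ) < r + 1 := by linarith [a3.2, b3.1]
    have e3 : r < r' + 1 := by exact_mod_cast e1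
    have e4 : r' < r + 1 := by exact_mod_cast e2
    have : r = r' := by omega
    rw [this]
  · exfalso
    have a3 := a2 rfl
    have b3 := abs_le.mp (b1 rfl)
    simp only at a3 b3
    have e1 : (r : ℝ) < r' := by linarith [a3.1, b3.2]
    have e2 : (r' : ℝ) < r + 1 := by linarith [a3.2, b3.1]
    have e3 : r < r' := by exact_mod_cast e1
    have e4 : r' < r + 1 := by exact_mod_cast e2
    omega
  · exfalso
    have a3 := abs_le.mp (a1 rfl)
    have b3 := b2 rfl
    simp only at a3 b3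
    have e1 : (r' : ℝ) < r := by linarith [a3.2, b3.1]
    have e2 : (r : ℝ) < r' + 1 := by linarith [a3.1, b3.2]
    have e3 : r' < r := by exact_mod_cast e1
    have e4 : r < r' + 1 := by exact_mod_cast e2
    omega
  · have a3 := abs_le.mp (a1 rfl)
    have b3 := abs_le.mp (b1 rfl)
    simp only at a3 b3
    have e1 : (r : ℝ) < r' + 1 := by linarith [a3.1, a3.2, b3.1, b3.2]
    have e2 : (r' : ℝ) < r + 1 := by linarith [a3.1, a3.2, b3.1, b3.2]
    have e3 : r < r' + 1 := by exact_mod_cast e1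
    have e4 : r' < r + 1 := by exact_mod_cast e2
    have : r = r' := by omega
    rw [this]

theorem box_cover {n : ℕ} (η : ℕ → ℝ) (hη : Antitone η) (z : Fin n → ℝ)
    (hz : ¬ ∀ j, ∃ r : ℤ, |z j - r| ≤ η 0) :
    ∃ i : Fin n, ∃ L : Fin n → Bool × ℤ, z ∈ box (η (i + 1)) (η i) L := by
  classical
  let c : ℕ → Finset (Fin n) := fun i => Finset.univ.filter fun j => ∃ r : ℤ, |z j - r| ≤ η i
  have hc : ∀ i j, j ∈ c i ↔ ∃ r : ℤ, |z j - r| ≤ η i := fun i j => by simp [c]
  have hex : ∃ i, n ≤ (c i).card + i := ⟨n, by omega⟩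
  let i := Nat.find hex
  have hi : n ≤ (c i).card + i := Nat.find_spec hex
  have hin : i ≤ n := Nat.find_min' hex (by omega)
  have hi0 : i ≠ 0 := by
    intro h0
    rw [h0] at hi
    refine hz fun j => ?_
    have h1 : c 0 = Finset.univ := by
      apply Finset.eq_univ_of_card
      have := Finset.card_le_univ (c 0)
      simp only [Fintype.card_fin] at this ⊢
      omega
    exact (hc 0 j).mp (by rw [h1]; exact Finset.mem_univ j)
  obtain ⟨k, hk⟩ : ∃ k, i = k + 1 := Nat.exists_eq_succ_of_ne_zero hi0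
  have hk' : ¬ n ≤ (c k).card + k := Nat.find_min hex (by omega)
  have hsub : c (k + 1) ⊆ c k := by
    intro j hj
    obtain ⟨r, hr⟩ := (hc _ j).mp hj
    exact (hc _ j).mpr ⟨r, hr.trans (hη (Nat.le_succ k))⟩
  have heq : c (k + 1) = c k := by
    refine Finset.eq_of_subset_of_card_le hsub ?_
    rw [hk] at hi
    omega
  refine ⟨⟨k, by omega⟩, fun j => if h : ∃ r : ℤ, |z j - r| ≤ η (k + 1) then (true, h.choose)
    else (false, ⌊z j⌋), fun j => ?_⟩
  by_cases h : ∃ r : ℤ, |z j - r| ≤ η (k + 1)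
  · simp only [dif_pos h]
    exact ⟨fun _ => h.choose_spec, fun h' => by simp at h'⟩
  · simp only [dif_neg h]
    refine ⟨fun h' => by simp at h', fun _ => ?_⟩
    have h2 : ¬ ∃ r : ℤ, |z j - r| ≤ η k := by
      rw [← hc, ← heq, hc]
      exact h
    push Not at h2
    have h3 := h2 ⌊z j⌋
    have h4 := h2 (⌊z j⌋ + 1)
    have h5 := Int.floor_le (z j)
    have h6 := Int.lt_floor_add_one (z j)
    rw [abs_of_nonneg (by linarith)] at h3
    push_cast at h4
    rw [abs_of_nonpos (by linarith)] at h4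
    constructor <;> linarith

theorem box_diam {n : ℕ} {s t : ℝ} (ht0 : 0 < t) (hst : s < t) (ht : t < 1 / 2)
    {L : Fin n → Bool × ℤ} {z z' : Fin n → ℝ} (h : z ∈ box s t L) (h' : z' ∈ box s t L) :
    dist z z' ≤ 1 := by
  rw [dist_pi_le_iff zero_le_one]
  intro j
  rw [Real.dist_eq, abs_le]
  obtain ⟨a1, a2⟩ := h j
  obtain ⟨b1, b2⟩ := h' j
  rcases hL : L j with ⟨c, r⟩
  rw [hL] at a1 a2 b1 b2
  cases c
  · have a3 := a2 rfl
    have b3 := b2 rfl
    simp only at a3 b3
    constructor <;> linarith [a3.1, a3.2, b3.1, b3.2]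
  · have a3 := abs_le.mp (a1 rfl)
    have b3 := abs_le.mp (b1 rfl)
    simp only at a3 b3
    constructor <;> linarith [a3.1, a3.2, b3.1, b3.2]

/-- the closed unit cube -/
def cube (n : ℕ) : Set (Fin n → ℝ) := {x | ∀ i, 0 ≤ x i ∧ x i ≤ 1}

theorem cube_compact (n : ℕ) : IsCompact (cube n) := by
  have : cube n = Set.pi Set.univ (fun _ => Set.Icc 0 1) := by
    ext x
    simp only [cube, Set.mem_pi, Set.mem_univ, true_implies, Set.mem_Icc]
    rfl
  rw [this]
  exact isCompact_univ_pi (fun _ => isCompact_Icc)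

/-- **Light maps of the `n`-cube to `ℝⁿ`** have images with nonempty interior. -/
theorem cube_light (n : ℕ) (φ : cube n → (Fin n → ℝ)) (hφ : Continuous φ)
    (hl : ∀ y, IsTotallyDisconnected (φ ⁻¹' {y})) : (interior (range φ)).Nonempty := by
  classical
  by_contra hint
  rw [Set.not_nonempty_iff_eq_empty] at hint
  have hcs : CompactSpace (cube n) := isCompact_iff_compactSpace.mp (cube_compact n)
  have hK : IsCompact (range φ) := isCompact_range hφ
  -- the faces
  let A : Fin n → Set (cube n) := fun i => {x | x.1 i = 0}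
  let B : Fin n → Set (cube n) := fun i => {x | x.1 i = 1}
  have hA : ∀ i, IsClosed (A i) := fun i =>
    isClosed_eq ((continuous_apply i).comp continuous_subtype_val) continuous_const
  have hB : ∀ i, IsClosed (B i) := fun i =>
    isClosed_eq ((continuous_apply i).comp continuous_subtype_val) continuous_const
  have hAB : ∀ i, Disjoint (A i) (B i) := fun i => by
    rw [Set.disjoint_left]
    intro x (h0 : x.1 i = 0) (h1 : x.1 i = 1)
    rw [h0] at h1
    exact zero_ne_one h1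
  choose e he hsep using fun i => light_sep hφ hl (hA i) (hB i) (hAB i)
  obtain ⟨ε, hε, hεe⟩ : ∃ ε > 0, ∀ i, ε ≤ e i := by
    have h1 : ∀ᶠ ε in 𝓝[>] (0 : ℝ), ∀ i, ε ≤ e i :=
      Filter.eventually_all.2 fun i => mem_of_superset (Ioc_mem_nhdsGT (he i)) fun x hx => hx.2
    obtain ⟨ε, h2, h3⟩ := (h1.and self_mem_nhdsWithin).exists
    exact ⟨ε, h3, h2⟩
  let m : ℝ := ε / 2
  have hm : 0 < m := by positivity
  -- the translation
  obtain ⟨t, ht⟩ : ∃ t : Fin n → ℝ, ∀ v : Fin n → ℤ, (t + m • fun j => (v j : ℝ)) ∉ range φ := by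
    have h1 : ∀ v : Fin n → ℤ, IsOpen {t : Fin n → ℝ | (t + m • fun j => (v j : ℝ)) ∉ range φ} :=
      fun v => hK.isClosed.isOpen_compl.preimage (by fun_prop)
    have h2 : ∀ v : Fin n → ℤ, Dense {t : Fin n → ℝ | (t + m • fun j => (v j : ℝ)) ∉ range φ} := by
      intro v
      have h3 : Dense (range φ)ᶜ := interior_eq_empty_iff_dense_compl.mp hint
      have h4 := h3.preimage (f := fun t : Fin n → ℝ => t + m • fun j => (v j : ℝ))
        (Homeomorph.addRight (m • fun j => (v j : ℝ))).isOpenMap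
      exact h4
    obtain ⟨t, ht⟩ := (dense_iInter_of_isOpen h1 h2).nonempty
    exact ⟨t, fun v => mem_iInter.mp ht v⟩
  let ζ : (Fin n → ℝ) → (Fin n → ℝ) := fun y => m⁻¹ • (y - t)
  have hζ : Continuous ζ := by fun_prop
  have hζd : ∀ y y', dist y y' = m * dist (ζ y) (ζ y') := by
    intro y y'
    simp only [ζ]
    rw [dist_smul₀, dist_sub_right, Real.norm_eq_abs, abs_of_pos (inv_pos.mpr hm)]
    field_simp
  have hK' : IsCompact (ζ '' range φ) := hK.image hζ
  have hΛ : IsClosed {z : Fin n → ℝ | ∀ j, z j ∈ range ((↑) : ℤ → ℝ)} := by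
    simp only [ofPred_forall]
    exact isClosed_iInter fun j =>
      Int.isClosedEmbedding_coe_real.isClosed_range.preimage (continuous_apply j)
  have hdisj : Disjoint (ζ '' range φ) {z : Fin n → ℝ | ∀ j, z j ∈ range ((↑) : ℤ → ℝ)} := by
    rw [Set.disjoint_left]
    rintro _ ⟨y, hy, rfl⟩ h
    choose v hv using h
    refine ht v ?_
    have : t + m • (fun j => (v j : ℝ)) = y := by
      funext j
      have h1 := hv j
      simp only [ζ, Pi.smul_apply, Pi.sub_apply, smul_eq_mul] at h1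
      simp only [Pi.add_apply, Pi.smul_apply, smul_eq_mul, h1]
      field_simp
      ring
    rw [this]
    exact hy
  obtain ⟨δ, hδ, hδd⟩ := hdisj.exists_cthickenings hK' hΛ
  let η : ℕ → ℝ := fun i => min δ (1 / 4) / (i + 1)
  have hη0 : ∀ i, 0 < η i := fun i => by
    have : 0 < min δ (1 / 4) := lt_min hδ (by norm_num)
    simp only [η]; positivity
  have hηs : ∀ i, η (i + 1) < η i := fun i => by
    have : 0 < min δ (1 / 4) := lt_min hδ (by norm_num)
    simp only [η]
    refine div_lt_div_of_pos_left this (by positivity) (by push_cast; linarith)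
  have hηa : Antitone η := antitone_nat_of_succ_le fun i => (hηs i).le
  have hη2 : ∀ i, η i < 1 / 2 := fun i => by
    have h1 : η i ≤ η 0 := hηa (Nat.zero_le i)
    have h2 : η 0 ≤ 1 / 4 := by simp [η]
    linarith
  have hnear : ∀ x : cube n, ¬ ∀ j, ∃ r : ℤ, |ζ (φ x) j - r| ≤ η 0 := by
    intro x h
    choose r hr using h
    refine Set.disjoint_left.mp hδd (self_subset_cthickening _ (mem_image_of_mem ζ ⟨x, rfl⟩)) ?_
    refine mem_cthickening_of_dist_le _ (fun j => (r j : ℝ)) _ _ (fun j => ⟨r j, rfl⟩) ?_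
    rw [dist_pi_le_iff hδ.le]
    intro j
    rw [Real.dist_eq]
    refine (hr j).trans ?_
    simp [η]
  -- the pieces
  have hpiece : ∀ (i : Fin n) (L : Fin n → Bool × ℤ), ∃ P Q : Set (cube n), IsClosed P ∧
      IsClosed Q ∧ P ∪ Q = φ ⁻¹' (ζ ⁻¹' box (η (i + 1)) (η i) L) ∧ Disjoint P Q ∧
      Disjoint P (B i) ∧ Disjoint Q (A i) := by
    intro i L
    rcases Set.eq_empty_or_nonempty (φ ⁻¹' (ζ ⁻¹' box (η (i + 1)) (η i) L)) with h0 | ⟨x, hx⟩
    · refine ⟨∅, ∅, isClosed_empty, isClosed_empty, by rw [h0]; simp, by simp, by simp, by simp⟩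
    · refine hsep i _ ((box_closed _ _ _).preimage hζ) (φ x) ⟨x, rfl⟩ ?_
      intro y hy
      have h1 := box_diam (hη0 i) (hηs i) (hη2 i) hy hx
      rw [mem_ball, hζd]
      have h2 : m * dist (ζ y) (ζ (φ x)) ≤ m * 1 := by gcongr
      have h3 : m < ε := by simp only [m]; linarith
      have h4 := hεe i
      linarith
  choose P Q hP hQ hPQ hPQd hPB hQA using hpiece
  -- only finitely many boxes are needed
  obtain ⟨N, hN⟩ : ∃ N : ℤ, ∀ (i : Fin n) (L : Fin n → Bool × ℤ) (x : cube n),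
      ζ (φ x) ∈ box (η (i + 1)) (η i) L → ∀ j, -N ≤ (L j).2 ∧ (L j).2 ≤ N := by
    obtain ⟨R, hR⟩ := hK'.isBounded.exists_norm_le
    refine ⟨⌈R⌉ + 2, fun i L x hx j => ?_⟩
    have h1 : |ζ (φ x) j| ≤ R := (norm_le_pi_norm _ j).trans (hR _ (mem_image_of_mem ζ ⟨x, rfl⟩))
    have h2 := Int.le_ceil R
    obtain ⟨a1, a2⟩ := hx j
    have h1' := abs_le.mp h1
    have b1 := hη2 i
    have b2 := hη2 (i + 1)
    have b3 := hη0 i
    rcases hL : L j with ⟨c, r⟩
    rw [hL] at a1 a2
    have h4 : -((⌈R⌉ : ℝ) + 2) ≤ r ∧ (r : ℝ) ≤ ⌈R⌉ + 2 := by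
      cases c
      · have a3 := a2 rfl
        simp only at a3
        constructor <;> linarith [a3.1, a3.2, h1'.1, h1'.2]
      · have a3 := abs_le.mp (a1 rfl)
        simp only at a3
        constructor <;> linarith [a3.1, a3.2, h1'.1, h1'.2]
    constructor
    · exact_mod_cast h4.1
    · exact_mod_cast h4.2
  let S : Set (Fin n → Bool × ℤ) := {L | ∀ j, L j ∈ (univ : Set Bool) ×ˢ Set.Icc (-N) N}
  have hS : S.Finite := Set.Finite.pi' fun j => (Set.finite_univ).prod (Set.finite_Icc _ _)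
  let A' : Fin n → Set (Fin n → ℝ) := fun i => Subtype.val '' (A i ∪ ⋃ L ∈ S, P i L)
  let B' : Fin n → Set (Fin n → ℝ) := fun i => Subtype.val '' (B i ∪ ⋃ L ∈ S, Q i L)
  have hA' : ∀ i, IsClosed (A' i) := fun i =>
    (((hA i).union (hS.isClosed_biUnion fun L _ => hP i L)).isCompact.image
      continuous_subtype_val).isClosed
  have hB' : ∀ i, IsClosed (B' i) := fun i =>
    (((hB i).union (hS.isClosed_biUnion fun L _ => hQ i L)).isCompact.image
      continuous_subtype_val).isClosed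
  have hAn : ∀ i, (A' i).Nonempty := fun i =>
    ⟨_, ⟨⟨fun _ => 0, fun _ => ⟨le_rfl, zero_le_one⟩⟩, Or.inl rfl, rfl⟩⟩
  have hBn : ∀ i, (B' i).Nonempty := fun i =>
    ⟨_, ⟨⟨fun _ => 1, fun _ => ⟨zero_le_one, le_rfl⟩⟩, Or.inl rfl, rfl⟩⟩
  have hd : ∀ i, Disjoint (A' i) (B' i) := by
    intro i
    rw [Set.disjoint_left]
    rintro _ ⟨x, hx, rfl⟩ ⟨x', hx', e⟩
    have e' : x' = x := Subtype.ext e
    subst e'
    rcases hx with hx | hx
    · rcases hx' with hx' | hx'
      · exact Set.disjoint_left.mp (hAB i) hx hx'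
      · obtain ⟨L, _, hx'⟩ := mem_iUnion₂.mp hx'
        exact Set.disjoint_left.mp (hQA i L) hx' hx
    · obtain ⟨L, _, hx⟩ := mem_iUnion₂.mp hx
      rcases hx' with hx' | hx'
      · exact Set.disjoint_left.mp (hPB i L) hx hx'
      · obtain ⟨L', _, hx'⟩ := mem_iUnion₂.mp hx'
        have h1 : x' ∈ φ ⁻¹' (ζ ⁻¹' box (η (i + 1)) (η i) L) := by rw [← hPQ]; exact Or.inl hx
        have h2 : x' ∈ φ ⁻¹' (ζ ⁻¹' box (η (i + 1)) (η i) L') := by rw [← hPQ]; exact Or.inr hx'
        have h3 := box_disj (hηs i) (hη2 i) (hη0 _).le h1 h2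
        subst h3
        exact Set.disjoint_left.mp (hPQd i L) hx hx'
  obtain ⟨x, hx, hx0⟩ := Pool.Agent.Helper475.Miranda.poincare_miranda n
    (fun x i => infDist x (A' i) - infDist x (B' i))
    (Continuous.continuousOn (continuous_pi fun i =>
      (continuous_infDist_pt _).sub (continuous_infDist_pt _)))
    (fun x hx i hi => by
      have h1 : x ∈ A' i := ⟨⟨x, hx⟩, Or.inl hi, rfl⟩
      rw [infDist_zero_of_mem h1]
      have := infDist_nonneg (x := x) (s := B' i)
      linarith)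
    (fun x hx i hi => by
      have h1 : x ∈ B' i := ⟨⟨x, hx⟩, Or.inl hi, rfl⟩
      rw [infDist_zero_of_mem h1]
      have := infDist_nonneg (x := x) (s := A' i)
      linarith)
  obtain ⟨i, L, hL⟩ := box_cover η hηa (ζ (φ ⟨x, hx⟩)) (hnear ⟨x, hx⟩)
  have hLS : L ∈ S := fun j => ⟨mem_univ _, hN i L _ hL j⟩
  have h1 : (⟨x, hx⟩ : cube n) ∈ P i L ∪ Q i L := by rw [hPQ]; exact hL
  have h0 : infDist x (A' i) = infDist x (B' i) := by
    have := congrFun hx0 i
    simp only [Pi.zero_apply] at this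
    linarith
  rcases h1 with h1 | h1
  · have h2 : x ∈ A' i := ⟨⟨x, hx⟩, Or.inr (mem_biUnion hLS h1), rfl⟩
    rw [infDist_zero_of_mem h2] at h0
    have h3 : x ∈ B' i := ((hB' i).mem_iff_infDist_zero (hBn i)).mpr h0.symm
    exact Set.disjoint_left.mp (hd i) h2 h3
  · have h2 : x ∈ B' i := ⟨⟨x, hx⟩, Or.inr (mem_biUnion hLS h1), rfl⟩
    rw [infDist_zero_of_mem h2] at h0
    have h3 : x ∈ A' i := ((hA' i).mem_iff_infDist_zero (hAn i)).mpr h0
    exact Set.disjoint_left.mp (hd i) h3 h2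

end Pool.Agent.TH289.L
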