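import Pool.Agent.TH289.L.Q1

/-!
# Light maps between manifolds (the dimension does not increase) are quasi-open
-/

set_option autoImplicit false

open Set Filter Topology Metric
open scoped Manifold ContDiff

namespace Pool.Agent.TH289.L

/-- Let `M` be a manifold of dimension `n`, `Y` a manifold of dimension at most `n` and `h : M → Y`
a continuous map with totally disconnected fibres.  Then the image of every nonempty open set has
nonempty interior. -/
theorem light_interior {E : Type*} [NormedAddCommGroup E] [NormedSpace ℝ E]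
    [FiniteDimensional ℝ E] {M : Type*} [TopologicalSpace M] [ChartedSpace E M]
    {E' : Type*} [NormedAddCommGroup E'] [NormedSpace ℝ E'] [FiniteDimensional ℝ E']
    {Y : Type*} [TopologicalSpace Y] [ChartedSpace E' Y]
    (hdim : Module.finrank ℝ E' ≤ Module.finrank ℝ E) {h : M → Y} (hc : Continuous h)
    (hl : ∀ y, IsTotallyDisconnected (h ⁻¹' {y})) {W : Set M} (hW : IsOpen W)
    (hne : W.Nonempty) : (interior (h '' W)).Nonempty := by
  obtain ⟨x₀, hx₀⟩ := hne
  set n := Module.finrank ℝ E with hn
  set n' := Module.finrank ℝ E' with hn'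
  let ch := chartAt E x₀
  let ch' := chartAt E' (h x₀)
  let O : Set M := ch.source ∩ (W ∩ h ⁻¹' ch'.source)
  have hO : IsOpen O := ch.open_source.inter (hW.inter (ch'.open_source.preimage hc))
  have hx₀O : x₀ ∈ O := ⟨mem_chart_source E x₀, hx₀, mem_chart_source E' (h x₀)⟩
  have hV : IsOpen (ch '' O) := ch.isOpen_image_of_subset_source hO (fun x hx => hx.1)
  let e : E ≃L[ℝ] (Fin n → ℝ) := ContinuousLinearEquiv.ofFinrankEq (by simp [hn])
  let e' : E' ≃L[ℝ] (Fin n' → ℝ) := ContinuousLinearEquiv.ofFinrankEq (by simp [hn'])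
  let ι : E' → (Fin n → ℝ) := fun v i => if hi : (i : ℕ) < n' then e' v ⟨i, hi⟩ else 0
  have hι : Continuous ι := by
    refine continuous_pi fun i => ?_
    by_cases hi : (i : ℕ) < n'
    · simp only [ι, dif_pos hi]
      exact (continuous_apply _).comp e'.continuous
    · simp only [ι, dif_neg hi]
      exact continuous_const
  have hιi : Function.Injective ι := by
    intro v w hvw
    apply e'.injective
    funext k
    have h1 := congrFun hvw ⟨k, lt_of_lt_of_le k.2 hdim⟩
    simpa [ι] using h1
  -- the open set in coordinates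
  have hV' : IsOpen (e.symm ⁻¹' (ch '' O)) := hV.preimage e.symm.continuous
  have ha : e (ch x₀) ∈ e.symm ⁻¹' (ch '' O) := by
    simp only [mem_preimage, ContinuousLinearEquiv.symm_apply_apply]
    exact mem_image_of_mem ch hx₀O
  obtain ⟨r, hr, hball⟩ := Metric.isOpen_iff.mp hV' _ ha
  let a : Fin n → ℝ := e (ch x₀)
  let aff : cube n → (Fin n → ℝ) := fun x => a + (r / 2) • x.1
  have haff : Continuous aff := by fun_prop
  have haffi : Function.Injective aff := by
    intro x y hxy
    simp only [aff, add_right_inj] at hxy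
    exact Subtype.ext (smul_right_injective _ (by positivity : (r / 2) ≠ 0) hxy)
  have haffm : ∀ x, e.symm (aff x) ∈ ch '' O := by
    intro x
    refine hball ?_
    rw [mem_ball, dist_eq_norm]
    have h1 : aff x - e (ch x₀) = (r / 2) • x.1 := by simp [aff, a]
    rw [h1, norm_smul, Real.norm_eq_abs, abs_of_pos (by positivity)]
    have h2 : ‖x.1‖ ≤ 1 := by
      rw [pi_norm_le_iff_of_nonneg zero_le_one]
      intro i
      rw [Real.norm_eq_abs, abs_of_nonneg (x.2 i).1]
      exact (x.2 i).2
    have : r / 2 * ‖x.1‖ ≤ r / 2 * 1 := by gcongr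
    linarith
  let κ : cube n → M := fun x => ch.symm (e.symm (aff x))
  have hκO : ∀ x, κ x ∈ O := by
    intro x
    obtain ⟨y, hy, hy'⟩ := haffm x
    simp only [κ]
    rw [← hy', ch.left_inv hy.1]
    exact hy
  have hκc : Continuous κ := by
    refine ch.continuousOn_symm.comp_continuous (e.symm.continuous.comp haff) fun x => ?_
    obtain ⟨y, hy, hy'⟩ := haffm x
    rw [← hy']
    exact ch.map_source hy.1
  have hκi : Function.Injective κ := by
    intro x y hxy
    apply haffi
    apply e.symm.injective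
    refine ch.symm.injOn ?_ ?_ hxy
    · obtain ⟨z, hz, hz'⟩ := haffm x
      rw [← hz']; exact ch.map_source hz.1
    · obtain ⟨z, hz, hz'⟩ := haffm y
      rw [← hz']; exact ch.map_source hz.1
  let ψ : cube n → E' := fun x => ch' (h (κ x))
  have hψc : Continuous ψ :=
    ch'.continuousOn.comp_continuous (hc.comp hκc) fun x => (hκO x).2.2
  obtain ⟨y, hy⟩ := cube_light n (fun x => ι (ψ x)) (hι.comp hψc) (by
    intro y t ht htp
    intro x hx z hz
    apply hκi
    have h1 : IsPreconnected (κ '' t) := htp.image κ hκc.continuousOn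
    refine hl (h (κ x)) (κ '' t) ?_ h1 (mem_image_of_mem κ hx) (mem_image_of_mem κ hz)
    rintro _ ⟨w, hw, rfl⟩
    have h2 : ι (ψ w) = ι (ψ x) := (ht hw).trans (ht hx).symm
    exact ch'.injOn (hκO w).2.2 (hκO x).2.2 (hιi h2))
  -- the interior in `E'`
  let G : Set E' := ι ⁻¹' interior (range fun x => ι (ψ x))
  have hG : IsOpen G := isOpen_interior.preimage hι
  have hGsub : G ⊆ range ψ := by
    intro w hw
    obtain ⟨x, hx⟩ := interior_subset hw
    exact ⟨x, hιi hx⟩
  obtain ⟨x, hx⟩ := interior_subset hy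
  have hxG : ψ x ∈ G := by
    show ι (ψ x) ∈ interior _
    have h1 : ι (ψ x) = y := hx
    rw [h1]; exact hy
  refine ⟨h (κ x), ?_⟩
  have hopen : IsOpen (ch'.source ∩ ch' ⁻¹' G) := ch'.isOpen_inter_preimage hG
  refine interior_maximal ?_ hopen ⟨(hκO x).2.2, hxG⟩
  rintro q ⟨hq, hqG⟩
  obtain ⟨z, hz⟩ := hGsub hqG
  have h3 : h (κ z) = q := ch'.injOn (hκO z).2.2 hq hz
  exact ⟨κ z, (hκO z).2.1, h3⟩

end Pool.Agent.TH289.L
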