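import Pool.Agent.TH289.L.Q2
import Pool.Agent.H576R3.CF.NW
import Pool.Agent.TH289.HomMain

/-!
# Quasi-open finite-to-one extensions of nonwandering homeomorphisms are nonwandering
-/

set_option autoImplicit false

open Set Filter Topology Metric
open scoped Manifold ContDiff

namespace Pool.Agent.TH289.L

open Pool.Agent.H721R2 Pool.Agent.H789R2.AN Pool.Agent.TH289

section
variable {X Y : Type*} [TopologicalSpace X] [TopologicalSpace Y]

/-- one direction of time -/
theorem fib_infinite {f : X ≃ₜ X} {g : Y ≃ₜ Y} {h : X → Y} (hfg : ∀ x, h (f x) = g (h x))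
    {W : Set X} (hwand : ∀ m : ℕ, 1 ≤ m → Disjoint (f^[m] '' W) W) {y : Y}
    (hrec : ∃ᶠ n : ℕ in atTop, g^[n] y ∈ h '' W) : (h ⁻¹' {y}).Infinite := by
  have hfg' : ∀ (n : ℕ) x, h (f^[n] x) = g^[n] (h x) := by
    intro n
    induction n with
    | zero => intro x; rfl
    | succ n ih => intro x; rw [Function.iterate_succ_apply', Function.iterate_succ_apply', hfg, ih]
  have hinf : {n : ℕ | g^[n] y ∈ h '' W}.Infinite := Nat.frequently_atTop_iff_infinite.mp hrec
  have hXne : Nonempty X := by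
    obtain ⟨_, x0, _⟩ := hrec.exists
    exact ⟨x0⟩
  have hch : ∀ n : ℕ, ∃ x : X, g^[n] y ∈ h '' W → x ∈ W ∧ h x = g^[n] y := by
    intro n
    by_cases hn : g^[n] y ∈ h '' W
    · obtain ⟨x, hx, hx'⟩ := hn
      exact ⟨x, fun _ => ⟨hx, hx'⟩⟩
    · exact ⟨Classical.arbitrary X, fun h => absurd h hn⟩
  choose w hw0 using hch
  have hw : ∀ n, g^[n] y ∈ h '' W → w n ∈ W := fun n hn => (hw0 n hn).1
  have hw' : ∀ n, g^[n] y ∈ h '' W → h (w n) = g^[n] y := fun n hn => (hw0 n hn).2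
  have hsym : ∀ (n : ℕ) x, f^[n] (f.symm^[n] x) = x := fun n =>
    Function.RightInverse.iterate f.apply_symm_apply n
  have h1 : ∀ n ∈ {n : ℕ | g^[n] y ∈ h '' W}, f.symm^[n] (w n) ∈ h ⁻¹' {y} := by
    intro n hn
    have h2 : g^[n] (h (f.symm^[n] (w n))) = g^[n] y := by
      rw [← hfg', hsym]
      exact hw' n hn
    exact g.injective.iterate n h2
  have h3 : InjOn (fun n => f.symm^[n] (w n)) {n : ℕ | g^[n] y ∈ h '' W} := by
    have key : ∀ n ∈ {n : ℕ | g^[n] y ∈ h '' W}, ∀ k ∈ {n : ℕ | g^[n] y ∈ h '' W}, n < k →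
        f.symm^[n] (w n) ≠ f.symm^[k] (w k) := by
      intro n hn k hk hnk e
      obtain ⟨m, rfl⟩ := Nat.exists_eq_add_of_lt hnk
      have e1 : f^[n + m + 1] (f.symm^[n] (w n)) = w (n + m + 1) := by rw [e, hsym]
      have e2 : f^[m + 1] (w n) = w (n + m + 1) := by
        rw [← e1, show n + m + 1 = (m + 1) + n by ring, Function.iterate_add_apply f (m + 1) n, hsym]
      exact Set.disjoint_left.mp (hwand (m + 1) (by omega)) ⟨w n, hw n hn, e2⟩ (hw _ hk)
    intro n hn k hk e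
    rcases lt_trichotomy n k with hlt | heq | hgt
    · exact absurd e (key n hn k hk hlt)
    · exact heq
    · exact absurd e.symm (key k hk n hn hgt)
  exact (hinf.image h3).mono (by rintro _ ⟨n, hn, rfl⟩; exact h1 n hn)

/-- If a nonempty open set `W` is wandering then `h(W)` meets infinitely many points of the orbit of
`y` only if the fibre of `y` is infinite. -/
theorem fib_infinite' {f : X ≃ₜ X} {g : Y ≃ₜ Y} {h : X → Y} (hfg : ∀ x, h (f x) = g (h x))
    {W : Set X} (hwand : ∀ m : ℕ, 1 ≤ m → Disjoint (f^[m] '' W) W) {y : Y}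
    (hrec : ∃ᶠ n : ℕ in atTop, g^[n] y ∈ h '' W ∨ g.symm^[n] y ∈ h '' W) :
    (h ⁻¹' {y}).Infinite := by
  rcases frequently_or_distrib.mp hrec with h1 | h1
  · exact fib_infinite hfg hwand h1
  · refine fib_infinite (f := f.symm) (g := g.symm) (fun x => ?_) (fun m hm => ?_) h1
    · apply g.injective
      rw [← hfg, f.apply_symm_apply, g.apply_symm_apply]
    · rw [Set.disjoint_left]
      rintro _ ⟨x, hx, rfl⟩ hx'
      refine Set.disjoint_left.mp (hwand m hm) ⟨_, hx', ?_⟩ hx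
      exact Function.RightInverse.iterate f.apply_symm_apply m x

/-- In a compact Hausdorff space without wandering points some point of every nonempty open set
returns to it infinitely often. -/
theorem exists_rec [CompactSpace Y] [T2Space Y] {g : Y ≃ₜ Y}
    (hg : ∀ V : Set Y, IsOpen V → V.Nonempty → ∃ m : ℕ, 1 ≤ m ∧ (g^[m] '' V ∩ V).Nonempty)
    {V : Set Y} (hV : IsOpen V) (hne : V.Nonempty) : ∃ y ∈ V, ∃ᶠ n : ℕ in atTop, g^[n] y ∈ V := by
  let T := {O : Set Y // IsOpen O ∧ O.Nonempty}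
  have step : ∀ O : T, ∃ (O' : T) (m : ℕ), 1 ≤ m ∧ closure O'.1 ⊆ O.1 ∧
      ∀ y ∈ O'.1, g^[m] y ∈ O.1 := by
    rintro ⟨O, hO, hOn⟩
    obtain ⟨m, hm, _, ⟨x, hx, rfl⟩, hx'⟩ := hg O hO hOn
    have h1 : IsOpen (O ∩ g^[m] ⁻¹' O) := hO.inter (hO.preimage (g.continuous.iterate m))
    obtain ⟨K, hK, hKc, hKs⟩ := exists_mem_nhds_isClosed_subset (h1.mem_nhds ⟨hx, hx'⟩)
    refine ⟨⟨interior K, isOpen_interior, x, mem_interior_iff_mem_nhds.mpr hK⟩, m, hm, ?_, ?_⟩
    · exact (closure_minimal interior_subset hKc).trans (hKs.trans inter_subset_left)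
    · intro y hy
      exact (hKs (interior_subset hy)).2
  choose nxt m hm hcl hret using step
  let sq : ℕ → T := fun j => nxt^[j] ⟨V, hV, hne⟩
  have hsq : ∀ j, sq (j + 1) = nxt (sq j) := fun j => Function.iterate_succ_apply' _ _ _
  have hanti : ∀ j, closure (sq (j + 1)).1 ⊆ closure (sq j).1 := fun j => by
    rw [hsq]; exact (hcl _).trans subset_closure
  obtain ⟨y, hy⟩ := IsCompact.nonempty_iInter_of_sequence_nonempty_isCompact_isClosed
    (fun j => closure (sq j).1) hanti (fun j => (sq j).2.2.mono subset_closure)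
    isClosed_closure.isCompact (fun j => isClosed_closure)
  have hyj : ∀ j, y ∈ (sq j).1 := fun j => hcl _ (by rw [← hsq]; exact mem_iInter.mp hy (j + 1))
  let s : ℕ → ℕ := fun j => ∑ i ∈ Finset.range j, m (sq i)
  have hs : ∀ j, j ≤ s j := by
    intro j
    induction j with
    | zero => simp
    | succ j ih =>
      have : s (j + 1) = s j + m (sq j) := Finset.sum_range_succ _ _
      have := hm (sq j)
      omega
  have hret' : ∀ j, ∀ z ∈ (sq j).1, g^[s j] z ∈ V := by
    intro j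
    induction j with
    | zero => intro z hz; simpa [s, sq] using hz
    | succ j ih =>
      intro z hz
      have e1 : s (j + 1) = s j + m (sq j) := Finset.sum_range_succ _ _
      rw [e1, Function.iterate_add_apply]
      refine ih _ (hret _ _ ?_)
      rw [← hsq]; exact hz
  refine ⟨y, hyj 0, ?_⟩
  rw [frequently_atTop]
  intro a
  exact ⟨s a, hs a, hret' a y (hyj a)⟩

/-- Quasi-open extensions, first case: all fibres are finite and all points of the base are
nonwandering. -/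
theorem nw_of_finite [CompactSpace Y] [T2Space Y] {f : X ≃ₜ X} {g : Y ≃ₜ Y} {h : X → Y}
    (hfg : ∀ x, h (f x) = g (h x))
    (hint : ∀ W : Set X, IsOpen W → W.Nonempty → (interior (h '' W)).Nonempty)
    (hfin : ∀ y, (h ⁻¹' {y}).Finite)
    (hg : ∀ V : Set Y, IsOpen V → V.Nonempty → ∃ m : ℕ, 1 ≤ m ∧ (g^[m] '' V ∩ V).Nonempty)
    (W : Set X) (hW : IsOpen W) (hne : W.Nonempty) : ∃ m : ℕ, 1 ≤ m ∧ (f^[m] '' W ∩ W).Nonempty := by
  by_contra hcon
  push Not at hcon
  obtain ⟨y, _, hy⟩ := exists_rec hg isOpen_interior (hint W hW hne)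
  refine fib_infinite hfg (W := W) (fun m hm => ?_) (hy.mono fun n hn => interior_subset hn)
    (hfin y)
  exact Set.disjoint_iff_inter_eq_empty.mpr (hcon m hm)

/-- Quasi-open extensions, second case: one finite fibre over a point with dense orbit. -/
theorem nw_of_one [T1Space Y] [T1Space X] [ConnectedSpace X] {f : X ≃ₜ X} {g : Y ≃ₜ Y} {h : X → Y}
    (hc : Continuous h) (hfg : ∀ x, h (f x) = g (h x))
    (hint : ∀ W : Set X, IsOpen W → W.Nonempty → (interior (h '' W)).Nonempty)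
    {y₀ : Y} (hfin : (h ⁻¹' {y₀}).Finite)
    (hd : Dense {z | ∃ n : ℕ, g^[n] y₀ = z ∨ g^[n] z = y₀})
    (W : Set X) (hW : IsOpen W) (hne : W.Nonempty) : ∃ m : ℕ, 1 ≤ m ∧ (f^[m] '' W ∩ W).Nonempty := by
  by_contra hcon
  push Not at hcon
  have hwand : ∀ m : ℕ, 1 ≤ m → Disjoint (f^[m] '' W) W := fun m hm =>
    Set.disjoint_iff_inter_eq_empty.mpr (hcon m hm)
  have hfg' : ∀ (n : ℕ) x, h (f^[n] x) = g^[n] (h x) := by
    intro n
    induction n with
    | zero => intro x; rfl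
    | succ n ih => intro x; rw [Function.iterate_succ_apply', Function.iterate_succ_apply', hfg, ih]
  have hsymg : ∀ (n : ℕ) x, g.symm^[n] (g^[n] x) = x := fun n =>
    Function.LeftInverse.iterate g.symm_apply_apply n
  have hsymg' : ∀ (n : ℕ) x, g^[n] (g.symm^[n] x) = x := fun n =>
    Function.RightInverse.iterate g.apply_symm_apply n
  -- the orbit visits `h '' W` only finitely often
  have h1 : ¬ ∃ᶠ n : ℕ in atTop, g^[n] y₀ ∈ h '' W ∨ g.symm^[n] y₀ ∈ h '' W :=
    fun h1 => fib_infinite' hfg hwand h1 hfin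
  have h2 : {n : ℕ | g^[n] y₀ ∈ h '' W ∨ g.symm^[n] y₀ ∈ h '' W}.Finite := by
    rw [Nat.frequently_atTop_iff_infinite] at h1
    exact Set.not_infinite.mp h1
  -- hence the interior of `h '' W` is finite
  have h3 : (interior (h '' W)).Finite := by
    let S : Set Y := (fun n : ℕ => g^[n] y₀) '' {n : ℕ | g^[n] y₀ ∈ h '' W ∨ g.symm^[n] y₀ ∈ h '' W} ∪
      (fun n : ℕ => g.symm^[n] y₀) '' {n : ℕ | g^[n] y₀ ∈ h '' W ∨ g.symm^[n] y₀ ∈ h '' W}
    have hS : S.Finite := (h2.image _).union (h2.image _)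
    refine hS.subset fun z hz => ?_
    by_contra hzS
    obtain ⟨z', ⟨hz1, hz2⟩, n, hn⟩ := hd.inter_open_nonempty _
      (isOpen_interior.sdiff hS.isClosed) ⟨z, hz, hzS⟩
    refine hz2 ?_
    rcases hn with hn | hn
    · exact Or.inl ⟨n, Or.inl (by rw [hn]; exact interior_subset hz1), hn⟩
    · have e1 : g.symm^[n] y₀ = z' := by rw [← hn, hsymg]
      exact Or.inr ⟨n, Or.inr (by rw [e1]; exact interior_subset hz1), e1⟩
  -- the fibres over the points of the orbit are finite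
  have h4 : ∀ n : ℕ, (h ⁻¹' {g^[n] y₀}).Finite := by
    intro n
    refine (hfin.image f^[n]).subset fun x (hx : h x = g^[n] y₀) => ?_
    have hx' : f^[n] (f.symm^[n] x) = x := Function.RightInverse.iterate f.apply_symm_apply n x
    refine ⟨f.symm^[n] x, ?_, hx'⟩
    refine g.injective.iterate n ?_
    rw [← hfg', hx', hx]
  have h5 : ∀ (n : ℕ) (z : Y), g^[n] z = y₀ → (h ⁻¹' {z}).Finite := by
    intro n z hz
    refine Set.Finite.of_finite_image (f := f^[n]) (hfin.subset ?_) (f.injective.iterate n).injOn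
    rintro _ ⟨x, hx, rfl⟩
    show h (f^[n] x) = y₀
    rw [hfg', show h x = z from hx, hz]
  have h6 : (W ∩ h ⁻¹' interior (h '' W)).Finite := by
    have e1 : h ⁻¹' interior (h '' W) = ⋃ z ∈ interior (h '' W), h ⁻¹' {z} := by
      ext x; simp
    refine Set.Finite.subset ?_ inter_subset_right
    rw [e1]
    refine h3.biUnion fun z hz => ?_
    -- `{z}` is open
    have hzo : IsOpen ({z} : Set Y) := by
      have e2 : ({z} : Set Y) = interior (h '' W) \ (interior (h '' W) \ {z}) := by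
        ext q; constructor
        · rintro rfl; exact ⟨hz, fun hq => hq.2 rfl⟩
        · rintro ⟨hq, hq'⟩
          by_contra hne'
          exact hq' ⟨hq, hne'⟩
      rw [e2]
      exact isOpen_interior.sdiff (h3.subset sdiff_subset).isClosed
    obtain ⟨z', hz', n, hn⟩ := hd.inter_open_nonempty _ hzo ⟨z, rfl⟩
    have e3 : z' = z := hz'
    subst e3
    rcases hn with hn | hn
    · rw [← hn]; exact h4 n
    · exact h5 n _ hn
  have h7 : (W ∩ h ⁻¹' interior (h '' W)).Nonempty := by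
    obtain ⟨z, hz⟩ := hint W hW hne
    obtain ⟨x, hx, rfl⟩ := interior_subset hz
    exact ⟨x, hx, hz⟩
  have h8 : W ∩ h ⁻¹' interior (h '' W) = univ :=
    IsClopen.eq_univ ⟨h6.isClosed, hW.inter (isOpen_interior.preimage hc)⟩ h7
  have h9 : W = univ := Set.eq_univ_of_univ_subset (h8 ▸ inter_subset_left)
  obtain ⟨x, hx⟩ := hne
  refine Set.disjoint_left.mp (hwand 1 le_rfl) ⟨x, hx, rfl⟩ ?_
  rw [h9]; trivial

end

/-- Nonwandering Anosov diffeomorphisms of connected manifolds are transitive. -/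
theorem man_nw {E : Type*} [NormedAddCommGroup E] [NormedSpace ℝ E] [FiniteDimensional ℝ E]
    {M : Type*} [TopologicalSpace M] [T2Space M] [CompactSpace M] [ConnectedSpace M]
    [ChartedSpace E M] [IsManifold 𝓘(ℝ, E) ∞ M] (f : Diffeomorph 𝓘(ℝ, E) 𝓘(ℝ, E) M M 1)
    (Es Eu : ∀ x : M, Submodule ℝ (TangentSpace 𝓘(ℝ, E) x)) (hA : IsAnosov f Es Eu)
    (hnw : ∀ U : Set M, IsOpen U → U.Nonempty → ∃ m : ℕ, 1 ≤ m ∧ (f^[m] '' U ∩ U).Nonempty) :
    TopTransitive f := by
  obtain ⟨m, ee, hee, hemb, hinje⟩ :=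
    exists_embedding_euclidean_of_compact (I := 𝓘(ℝ, E)) (M := M)
  let _ : MetricSpace M := hemb.isEmbedding.comapMetricSpace ee
  have hiso : ∀ x y : M, dist x y = ‖ee x - ee y‖ := fun x y => dist_eq_norm (ee x) (ee y)
  have he1 : ContMDiff 𝓘(ℝ, E) (𝓡 m) 1 ee := hee.of_le (by simp)
  obtain ⟨n, ⟨S, hg, -, -, -⟩, hn⟩ :=
    ((exists_sys_ev hiso he1 hinje f Es Eu hA).and (eventually_ge_atTop 1)).exists
  have hgk : ∀ k : ℕ, (S.g^[k]) = (f^[n * k]) := by
    intro k
    funext x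
    rw [hg]
    exact iterHomeo_iter f.toHomeomorph n k x
  intro U V hU hUn hV hVn
  obtain ⟨k, _, ⟨x, hx, rfl⟩, hy⟩ := Pool.Agent.H576R3.CF.trans_of_nw S (fun O hO hOn => by
    obtain ⟨k, hk, hk'⟩ := Pool.Agent.H576R3.CF.nw_pow f f.continuous hnw n hn O hO hOn
    refine ⟨k, hk, ?_⟩
    rw [hgk k]
    exact hk') U V hU hUn hV hVn
  rw [hgk k] at hy
  exact ⟨n * k, f^[n * k] x, ⟨x, hx, rfl⟩, hy⟩

end Pool.Agent.TH289.L
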