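import Pool.Agent.TH289.L.Q3
import Pool.Agent.TH289.AttInj

/-!
# Quasi-open extensions of transitive homeomorphisms: one fibre decides about transitivity
-/

set_option autoImplicit false
set_option linter.unusedSectionVars false

open Set Filter Topology Metric
open scoped Manifold ContDiff

namespace Pool.Agent.TH289.L

open Pool.Agent.H721R2 Pool.Agent.H789R2.AN Pool.Agent.H789R2.GP Pool.Agent.TH289

section
variable {X : Type*} [MetricSpace X] [CompactSpace X]

/-- the geometric sequence `c / 2ⁿ` is eventually small -/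
theorem geo_small (c : ℝ) {e : ℝ} (he : 0 < e) : ∃ k : ℕ, ∀ n ≥ k, c * (1 / 2 : ℝ) ^ n < e := by
  have h5 : Tendsto (fun n : ℕ => c * (1 / 2 : ℝ) ^ n) atTop (𝓝 0) := by
    have := (tendsto_pow_atTop_nhds_zero_of_lt_one (by norm_num : (0:ℝ) ≤ 1 / 2)
      (by norm_num)).const_mul c
    simpa using this
  exact eventually_atTop.mp ((tendsto_order.mp h5).2 e he)

/-- points near an attractor converge to it uniformly -/
theorem att_unif {f : X ≃ₜ X} {N : ℕ} (hN : 1 ≤ N) {c : ℝ} (h : LP (iterHomeo f N) c)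
    {A : Set X} (hA : IsAtt f A) : ∃ δ > 0, (∀ ρ > 0, ∃ n₀ : ℕ, ∀ x, (∃ a ∈ A, dist x a < δ) →
      ∀ n ≥ n₀, ∃ a ∈ A, dist (f^[n] x) a < ρ) ∧ ∀ x, (∃ a ∈ A, dist x a < δ) → x ∈ Bas f A := by
  obtain ⟨δ, hδ, hnear⟩ := h.near
  refine ⟨δ, hδ, fun ρ hρ => ?_, ?_⟩
  · obtain ⟨η, hη, h1⟩ := T1_unif f N hρ
    obtain ⟨m, hm⟩ := geo_small c hη
    refine ⟨N * m, ?_⟩
    rintro x ⟨a, ha, hxa⟩ n hn
    obtain ⟨z, hz, hxz⟩ := hnear A (att_iter hA hN) a ha x hxa
    have hnn : n = n % N + N * (n / N) := (Nat.mod_add_div n N).symm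
    have h2 : m ≤ n / N := by
      rw [Nat.le_div_iff_mul_le (by omega)]
      rwa [Nat.mul_comm]
    have h3 := h.cS _ _ hxz (n / N)
    rw [iterHomeo_iter, iterHomeo_iter] at h3
    have h4 := h1 (n % N) (Nat.mod_lt _ (by omega)).le _ _ (h3.trans_lt (hm _ h2))
    rw [← Function.iterate_add_apply, ← Function.iterate_add_apply, ← hnn] at h4
    exact ⟨f^[n] z, (inv_iter hA.inv n z).mpr hz, h4⟩
  · rintro x ⟨a, ha, hxa⟩
    obtain ⟨z, hz, hxz⟩ := hnear A (att_iter hA hN) a ha x hxa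
    exact ⟨z, hz, (WS_iter_iff f hN _ _).mp (WS.of_SR (h.cS _ _ hxz))⟩

/-- Attractors are mapped onto the base by a quasi-open semiconjugacy to a transitive map. -/
theorem att_surj {f : X ≃ₜ X} {N : ℕ} (hN : 1 ≤ N) {c : ℝ} (h : LP (iterHomeo f N) c)
    {A : Set X} (hA : IsAtt f A) {Y : Type*} [TopologicalSpace Y] [CompactSpace Y] [T2Space Y]
    {g : Y ≃ₜ Y} (ht : TopTransitive g) {p : X → Y} (hc : Continuous p)
    (hfg : ∀ x, p (f x) = g (p x))
    (hint : ∀ W : Set X, IsOpen W → W.Nonempty → (interior (p '' W)).Nonempty) :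
    p '' A = univ := by
  rw [eq_univ_iff_forall]
  intro y
  by_contra hy
  have hcl : IsClosed (p '' A) := (hA.closed.isCompact.image hc).isClosed
  obtain ⟨K, hK, hKc, hKs⟩ := exists_mem_nhds_isClosed_subset (hcl.isOpen_compl.mem_nhds hy)
  have hQ : IsClosed (p ⁻¹' K) := hKc.preimage hc
  have hdisj : Disjoint A (p ⁻¹' K) := by
    rw [Set.disjoint_left]
    intro x hx hxK
    exact hKs hxK ⟨x, hx, rfl⟩
  obtain ⟨ρ, hρ, hρAR⟩ : ∃ ρ > 0, ∀ a ∈ A, ∀ r ∈ p ⁻¹' K, ρ ≤ dist a r := by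
    obtain ⟨ρ, hρ, h1⟩ := exists_pos_forall_lt_edist hA.closed.isCompact hQ hdisj
    refine ⟨ρ, hρ, fun a ha r hr => ?_⟩
    have h2 := h1 a ha r hr
    rw [edist_dist, ← ENNReal.ofReal_coe_nnreal] at h2
    exact ((ENNReal.ofReal_lt_ofReal_iff_of_nonneg ρ.coe_nonneg).mp h2).le
  obtain ⟨δ, hδ, hunif, -⟩ := att_unif hN h hA
  obtain ⟨n₀, hunif⟩ := hunif ρ hρ
  obtain ⟨a, ha⟩ := hA.nonempty
  have hV := hint (ball a δ) isOpen_ball ⟨a, mem_ball_self hδ⟩
  have hy' : (g^[n₀] ⁻¹' interior K).Nonempty := by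
    refine ⟨g.symm^[n₀] y, ?_⟩
    have e1 : g^[n₀] (g.symm^[n₀] y) = y :=
      (Function.RightInverse.iterate g.apply_symm_apply n₀) y
    rw [mem_preimage, e1]
    exact mem_interior_iff_mem_nhds.mpr hK
  obtain ⟨n, z, ⟨v, hv, rfl⟩, hz⟩ := ht _ _ isOpen_interior hV
    (isOpen_interior.preimage (g.continuous.iterate n₀)) hy'
  obtain ⟨x, hx, rfl⟩ := interior_subset hv
  have hpn : ∀ k : ℕ, ∀ x, p (f^[k] x) = g^[k] (p x) := fun k =>
    Function.Semiconj.iterate_right (f := p) (ga := f) (gb := g) hfg k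
  have h1 : f^[n₀ + n] x ∈ p ⁻¹' K := by
    show p (f^[n₀ + n] x) ∈ K
    rw [hpn, Function.iterate_add_apply]
    exact interior_subset hz
  obtain ⟨b, hb, hxb⟩ := hunif x ⟨a, ha, mem_ball.mp hx⟩ (n₀ + n) (by omega)
  have h2 := hρAR b hb _ h1
  rw [dist_comm] at h2
  linarith

/-- finite pseudo-orbits of bounded length -/
theorem pseudo_le (f : X ≃ₜ X) (L : ℕ) {ε : ℝ} (hε : 0 < ε) : ∃ δ > 0, ∀ i ≤ L, ∀ c : ℕ → X,
    (∀ j < i, dist (f (c j)) (c (j + 1)) ≤ δ) → dist (f^[i] (c 0)) (c i) ≤ ε := by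
  induction L generalizing ε with
  | zero =>
    refine ⟨1, one_pos, fun i hi c _ => ?_⟩
    obtain rfl : i = 0 := by omega
    simpa using hε.le
  | succ L ih =>
    obtain ⟨η, hη, h1⟩ := T1_unif f 1 (half_pos hε)
    obtain ⟨δ, hδ, h2⟩ := ih (lt_min (half_pos hη) hε)
    refine ⟨min δ (ε / 2), lt_min hδ (half_pos hε), fun i hi c hc => ?_⟩
    rcases Nat.lt_or_ge L i with hLi | hLi
    · obtain rfl : i = L + 1 := by omega
      have h3 := h2 L le_rfl c fun j hj => (hc j (by omega)).trans (min_le_left _ _)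
      have h4 := h1 1 le_rfl _ _ ((h3.trans (min_le_left _ _)).trans_lt (half_lt_self hη))
      have h5 := (hc L (by omega)).trans (min_le_right _ _)
      rw [Function.iterate_succ_apply']
      simp only [Function.iterate_one] at h4
      have h6 := dist_triangle (f (f^[L] (c 0))) (f (c L)) (c (L + 1))
      linarith
    · exact (h2 i hLi c fun j hj => (hc j hj).trans (min_le_left _ _)).trans (min_le_right _ _)

/-- the basin of an attractor for `f` -/
theorem isOpen_bas' {f : X ≃ₜ X} {N : ℕ} (hN : 1 ≤ N) {c : ℝ} (h : LP (iterHomeo f N) c)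
    {A : Set X} (hA : IsAtt f A) : IsOpen (Bas f A) := by
  have e1 : Bas f A = Bas (iterHomeo f N) A := by
    ext y
    exact exists_congr fun z => and_congr_right fun _ => (WS_iter_iff f hN y z).symm
  rw [e1]
  exact isOpen_bas h (att_iter hA hN)

/-- Chains with small jumps which start in an attractor do not leave its basin. -/
theorem bas_chain {f : X ≃ₜ X} {N : ℕ} (hN : 1 ≤ N) {c : ℝ} (h : LP (iterHomeo f N) c)
    {A : Set X} (hA : IsAtt f A) : ∃ δ > 0, ∀ (m : ℕ) (x : ℕ → X), x 0 ∈ A →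
      (∀ i < m, dist (f (x i)) (x (i + 1)) ≤ δ) → x m ∈ Bas f A := by
  obtain ⟨δ, hδ, hunif, hbas⟩ := att_unif hN h hA
  obtain ⟨n₀, hn₀⟩ := hunif (δ / 4) (by positivity)
  set L := max n₀ 1 with hL
  have hL1 : 1 ≤ L := le_max_right _ _
  have hLn : n₀ ≤ L := le_max_left _ _
  set C : Set X := {x | infDist x A ≤ δ / 2} with hC
  have hCc : IsClosed C := isClosed_le (continuous_infDist_pt A) continuous_const
  have hCA : ∀ x ∈ C, ∃ a ∈ A, dist x a < δ := fun x hx =>
    (infDist_lt_iff hA.nonempty).mp (lt_of_le_of_lt hx (half_lt_self hδ))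
  set D : Set X := ⋃ i ∈ Finset.range (L + 1), f^[i] '' C with hD
  have hDc : IsCompact D := (Finset.range (L + 1)).isCompact_biUnion fun i _ =>
    hCc.isCompact.image (f.continuous.iterate i)
  have hbinv : ∀ (i : ℕ) (x : X), f^[i] x ∈ Bas f A ↔ x ∈ Bas f A := by
    intro i x
    exact inv_iter (fun x => bas_map (fun _ => rfl) hA.inv x) i x
  have hDb : ∀ x ∈ D, x ∈ Bas f A := by
    intro x hx
    obtain ⟨i, _, y, hy, rfl⟩ := mem_iUnion₂.mp hx
    exact (hbinv i y).mpr (hbas y (hCA y hy))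
  have hRc : IsClosed (Bas f A)ᶜ := (isOpen_bas' hN h hA).isClosed_compl
  have hdisj : Disjoint D (Bas f A)ᶜ := by
    rw [Set.disjoint_left]
    intro x hx hx'
    exact hx' (hDb x hx)
  obtain ⟨ρ, hρ, hρAR⟩ : ∃ ρ > 0, ∀ a ∈ D, ∀ r ∈ (Bas f A)ᶜ, ρ ≤ dist a r := by
    obtain ⟨ρ, hρ, h1⟩ := exists_pos_forall_lt_edist hDc hRc hdisj
    refine ⟨ρ, hρ, fun a ha r hr => ?_⟩
    have h2 := h1 a ha r hr
    rw [edist_dist, ← ENNReal.ofReal_coe_nnreal] at h2
    exact ((ENNReal.ofReal_lt_ofReal_iff_of_nonneg ρ.coe_nonneg).mp h2).le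
  obtain ⟨δ', hδ', hps⟩ := pseudo_le f L (lt_min (half_pos hρ) (by positivity : 0 < δ / 4))
  refine ⟨δ', hδ', ?_⟩
  have key : ∀ m : ℕ, ∀ x : ℕ → X, x 0 ∈ C → (∀ i < m, dist (f (x i)) (x (i + 1)) ≤ δ') →
      x m ∈ Bas f A := by
    intro m
    induction m using Nat.strong_induction_on with
    | _ m ih =>
      intro x hx0 hx
      rcases Nat.lt_or_ge L m with hm | hm
      · have h1 := hps L le_rfl x fun j hj => hx j (by omega)
        obtain ⟨a, ha, h2⟩ := hn₀ (x 0) (hCA _ hx0) L hLn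
        have h3 : x L ∈ C := by
          have h4 : infDist (x L) A ≤ dist (x L) a := infDist_le_dist_of_mem ha
          have h5 := dist_triangle (x L) (f^[L] (x 0)) a
          rw [dist_comm (x L) (f^[L] (x 0))] at h5
          have h6 := h1.trans (min_le_right _ _)
          show infDist (x L) A ≤ δ / 2
          linarith
        have h4 := ih (m - L) (by omega) (fun i => x (L + i)) h3 fun i hi => by
          have := hx (L + i) (by omega)
          exact this
        have e1 : L + (m - L) = m := by omega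
        simp only [e1] at h4
        exact h4
      · have h1 := hps m hm x fun j hj => hx j hj
        by_contra hcon
        have h2 : f^[m] (x 0) ∈ D :=
          mem_iUnion₂.mpr ⟨m, Finset.mem_range.mpr (by omega), mem_image_of_mem _ hx0⟩
        have h3 := hρAR _ h2 _ hcon
        have h4 := h1.trans (min_le_left _ _)
        linarith
  intro m x hx0 hx
  refine key m x ?_ hx
  show infDist (x 0) A ≤ δ / 2
  rw [infDist_zero_of_mem hx0]
  positivity

/-- If the whole space is the only attractor then all points are nonwandering. -/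
theorem nw_of_unique {E : Type*} [NormedAddCommGroup E] [NormedSpace ℝ E]
    (S : HypSys X E) {f : X ≃ₜ X} {N : ℕ} (hN : 1 ≤ N) (hS : S.g = iterHomeo f N)
    (hun : ∀ A, IsAtt f A → A = univ) (U : Set X) (hU : IsOpen U) (hne : U.Nonempty) :
    ∃ m : ℕ, 1 ≤ m ∧ (f^[m] '' U ∩ U).Nonempty := by
  obtain ⟨c, hLP⟩ := exists_LP S
  rw [hS] at hLP
  obtain ⟨x, hx⟩ := hne
  have : Nonempty X := ⟨x⟩
  obtain ⟨ε, hε, hball⟩ := Metric.isOpen_iff.mp hU x hx
  obtain ⟨δ₁, hδ₁, hsh⟩ := per_shadow S (half_pos hε)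
  obtain ⟨δ, hδ, hps⟩ := pseudo_iter f N hδ₁
  have hmin : MinAtt f univ := ⟨isAtt_univ f, fun B hB _ => (hun B hB).ge⟩
  obtain ⟨m, hm, u, hu1, hu2, hu3⟩ := loop_of_transGen
    (chain_tr hN hLP hmin (mem_univ x) (mem_univ x) hδ)
  have hper : ∀ (k : ℕ) (n : ℤ), u (n + k * m) = u n := by
    intro k
    induction k with
    | zero => intro n; simp
    | succ k ih =>
      intro n
      have : n + ((k + 1 : ℕ) : ℤ) * m = (n + k * m) + m := by push_cast; ring
      rw [this, hu1, ih]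
  have h1 : ∀ n : ℤ, dist (S.g (u (N * n))) (u (N * (n + 1))) ≤ δ₁ := by
    intro n
    have h2 := hps (fun i : ℕ => u (N * n + i)) (fun i => by
      have h3 := (hu3 (N * n + i)).2.2
      push_cast
      rw [← add_assoc]
      exact h3)
    simp only [Nat.cast_zero, add_zero] at h2
    rw [hS, iterHomeo_apply]
    have h4 : (N : ℤ) * (n + 1) = N * n + N := by ring
    rw [h4]
    exact h2
  obtain ⟨p, hp1, hp2, -⟩ := hsh m (fun n => u (N * n)) (fun n => by
    show u (N * (n + m)) = u (N * n)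
    have := hper N (N * n)
    rw [← this]
    congr 1
    ring) h1
  have h5 := hp2 0
  simp only [Function.iterate_zero, id_eq, Nat.cast_zero, mul_zero, hu2] at h5
  have hpU : p ∈ U := hball (by rw [mem_ball]; linarith)
  refine ⟨N * m, Nat.mul_pos (by omega) (by omega), p, ⟨p, hpU, ?_⟩, hpU⟩
  rw [hS, iterHomeo_iter] at hp1
  exact hp1

/-- One fibre decides. -/
theorem unique_of_fibre {f : X ≃ₜ X} {N : ℕ} (hN : 1 ≤ N) {c : ℝ} (h : LP (iterHomeo f N) c)
    {Y : Type*} [TopologicalSpace Y] [CompactSpace Y] [T2Space Y]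
    {g : Y ≃ₜ Y} (ht : TopTransitive g) {p : X → Y} (hc : Continuous p)
    (hfg : ∀ x, p (f x) = g (p x))
    (hint : ∀ W : Set X, IsOpen W → W.Nonempty → (interior (p '' W)).Nonempty) {y₀ : Y}
    (hch : ∀ x ∈ p ⁻¹' {y₀}, ∀ x' ∈ p ⁻¹' {y₀}, ∀ δ > 0,
      Relation.ReflTransGen (fun a b => dist (f a) b ≤ δ) x x')
    (A : Set X) (hA : IsAtt f A) : A = univ := by
  by_contra hne
  obtain ⟨z, hz⟩ := (ne_univ_iff_exists_notMem A).mp hne
  obtain ⟨w, hw, -⟩ := exists_repeller h (att_iter hA hN) hz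
  have hw' : w ∉ Bas f A := fun ⟨a, ha, hwa⟩ => hw ⟨a, ha, (WS_iter_iff f hN _ _).mpr hwa⟩
  have hR : IsAtt f.symm (Bas f A)ᶜ := by
    refine ⟨(isOpen_bas' hN h hA).isClosed_compl, ⟨w, hw'⟩, fun x => ?_, fun x hx y hxy hy => ?_⟩
    · rw [mem_compl_iff, mem_compl_iff]
      exact not_congr (inv_symm (fun x => bas_map (fun _ => rfl) hA.inv x) x)
    · obtain ⟨a, ha, hya⟩ := hy
      exact hx ⟨a, ha, WS.trans hxy hya⟩
  have hLP' : LP (iterHomeo f.symm N) c := by
    rw [← iterHomeo_symm]; exact h.symm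
  have ht' : TopTransitive g.symm := by
    intro U V hU hUn hV hVn
    obtain ⟨n, _, ⟨x, hx, rfl⟩, hy⟩ := ht V U hV hVn hU hUn
    exact ⟨n, x, ⟨g^[n] x, hy, (Function.LeftInverse.iterate g.symm_apply_apply n) x⟩, hx⟩
  have hfg' : ∀ x, p (f.symm x) = g.symm (p x) := by
    intro x
    apply g.injective
    rw [← hfg, f.apply_symm_apply, g.apply_symm_apply]
  have h1 : y₀ ∈ p '' A := by
    rw [att_surj hN h hA ht hc hfg hint]; trivial
  have h2 : y₀ ∈ p '' (Bas f A)ᶜ := by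
    rw [att_surj hN hLP' hR ht' hc hfg' hint]; trivial
  obtain ⟨a, ha, ha'⟩ := h1
  obtain ⟨r, hr, hr'⟩ := h2
  obtain ⟨δ, hδ, hbc⟩ := bas_chain hN h hA
  rcases Relation.reflTransGen_iff_eq_or_transGen.mp (hch a ha' r hr' δ hδ) with h3 | h3
  · rw [h3] at hr
    exact hr (subset_bas f A ha)
  · obtain ⟨m, _, x, hx0, hxm, hx⟩ := path_of_transGen h3
    refine hr ?_
    rw [← hxm]
    exact hbc m x (by rw [hx0]; exact ha) hx

end

/-- Anosov diffeomorphisms that are quasi-open extensions of a transitive homeomorphism, with one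
fibre all points of which are chain equivalent. -/
theorem man_fibre {E : Type*} [NormedAddCommGroup E] [NormedSpace ℝ E] [FiniteDimensional ℝ E]
    {M : Type*} [TopologicalSpace M] [T2Space M] [CompactSpace M] [ConnectedSpace M]
    [ChartedSpace E M] [IsManifold 𝓘(ℝ, E) ∞ M] (f : Diffeomorph 𝓘(ℝ, E) 𝓘(ℝ, E) M M 1)
    (Es Eu : ∀ x : M, Submodule ℝ (TangentSpace 𝓘(ℝ, E) x)) (hA : IsAnosov f Es Eu)
    {Y : Type*} [TopologicalSpace Y] [CompactSpace Y] [T2Space Y]
    {g : Y ≃ₜ Y} (ht : TopTransitive g) {p : M → Y} (hc : Continuous p)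
    (hfg : ∀ x, p (f x) = g (p x))
    (hint : ∀ W : Set M, IsOpen W → W.Nonempty → (interior (p '' W)).Nonempty) {y₀ : Y}
    (hch : ∀ x ∈ p ⁻¹' {y₀}, ∀ x' ∈ p ⁻¹' {y₀}, ∀ 𝒰 ∈ 𝓝ˢ (diagonal M),
      Relation.ReflTransGen (fun a b => (f a, b) ∈ 𝒰) x x') :
    TopTransitive f := by
  refine man_nw f Es Eu hA ?_
  obtain ⟨m, ee, hee, hemb, hinje⟩ :=
    exists_embedding_euclidean_of_compact (I := 𝓘(ℝ, E)) (M := M)
  let _ : MetricSpace M := hemb.isEmbedding.comapMetricSpace ee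
  have hiso : ∀ x y : M, dist x y = ‖ee x - ee y‖ := fun x y => dist_eq_norm (ee x) (ee y)
  have he1 : ContMDiff 𝓘(ℝ, E) (𝓡 m) 1 ee := hee.of_le (by simp)
  obtain ⟨n, ⟨S, hg, -, -, -⟩, hn⟩ :=
    ((exists_sys_ev hiso he1 hinje f Es Eu hA).and (eventually_ge_atTop 1)).exists
  obtain ⟨c, hLP⟩ := exists_LP S
  rw [hg] at hLP
  refine nw_of_unique S hn hg (unique_of_fibre (f := f.toHomeomorph) (y₀ := y₀) hn hLP ht hc hfg hint
    fun x hx x' hx' δ hδ => ?_)
  have h1 : {q : M × M | dist q.1 q.2 < δ} ∈ 𝓝ˢ (diagonal M) := by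
    rw [nhdsSet_diagonal_eq_uniformity]
    exact Metric.dist_mem_uniformity hδ
  have h2 := hch x hx x' hx' _ h1
  clear hx'
  induction h2 with
  | refl => exact Relation.ReflTransGen.refl
  | tail _ hab ih => exact ih.tail (le_of_lt hab)

end Pool.Agent.TH289.L
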